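import Pool.Agent.Lib.Pc0b458.Four

/-!
# MP_c0b458_ag: reduction to exotic classes in the middle codimension

`Pc0b458.NumTheory` (file `Pool.Agent.Lib.Pc0b458.Theory`) lists the standard, known properties
of the rings of numerical cycle classes on the abelian varieties over a fixed field.
`Pc0b458.HSC T A L n` is the positivity of Q1 for `A`, `L` and `n`.
-/

universe u

namespace Pool.Agent.Results.MP_c0b458_ag.ExoticReduction

open Pc0b458

/-- the statement of Q1 for all abelian varieties over the base field -/
def Q1 (T : NumTheory.{u}) : Prop :=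
  ∀ (A : T.AV) (L : T.Z A), L ∈ T.Pol A → ∀ n, 2 * n ≤ T.dim A → HSC T.toCycleRings A L n

/-- for every `A` and `n`, the positivity for `A` in codimension `n` and all polarisations
follows from the positivity in the middle codimension of `A × B`, for one polarisation and the
classes orthogonal to intersections of divisors, where `B` is any abelian variety with
`dim B = dim A - 2 n` -/
def ToMiddle (T : NumTheory.{u}) : Prop :=
  ∀ (A B : T.AV) (n : ℕ), 2 * n ≤ T.dim A → T.dim B = T.dim A - 2 * n →
    ∀ L₀ ∈ T.Pol (T.prod A B), HSCex T.toCycleRings (T.prod A B) L₀ (T.dim A - n) →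
      ∀ L ∈ T.Pol A, HSC T.toCycleRings A L n

/-- every `A` of dimension `4 k` has a polarisation `L` such that `x.x > 0` for all nonzero `x`
of codimension `2 k` with `L.x = 0` which are orthogonal to the intersections of divisors -/
def ExoticPos (T : NumTheory.{u}) : Prop :=
  ∀ (A : T.AV) (k : ℕ), T.dim A = 4 * k → ∃ L ∈ T.Pol A,
    ∀ x ∈ T.cod A (2 * k), x ≠ 0 → L * x = 0 →
      (∀ y ∈ Lef T.toCycleRings A (2 * k), T.deg A (x * y) = 0) → 0 < T.deg A (x * x)

theorem result (T : NumTheory.{u}) : ToMiddle T ∧ (Q1 T ↔ ExoticPos T) := by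
  refine ⟨?_, ?_, ?_⟩
  · intro A B n hn hB L₀ hL₀ h L hL
    have hdim := T.dim_prod A B
    exact NumTheory.middle A B hn hB hL₀ (NumTheory.of_exotic _ hL₀ (by omega) h) hL
  · intro h A k hk
    obtain ⟨L, hL⟩ := T.pol_exists A
    refine ⟨L, hL, fun x hx hx0 hxp _ => ?_⟩
    have hexp : T.dim A - 2 * (2 * k) = 0 := by omega
    have h1 := h A L hL (2 * k) (by omega) x hx hx0 (by
      rw [hexp, zero_add, pow_one]; exact hxp)
    rw [hexp, pow_zero, mul_one, pow_mul] at h1
    norm_num at h1
    exact h1
  · intro h A L hL n hn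
    exact NumTheory.of_four h A hL hn

end Pool.Agent.Results.MP_c0b458_ag.ExoticReduction
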