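import Pool.Agent.Lib.Pc0b458.Reduce2

/-!
# Raising the dimension by two, and the final reductions
-/

universe u

namespace Pc0b458

namespace NumTheory

variable {T : NumTheory.{u}}

/-- from dimension `2m + 2` to dimension `2m` in the middle codimension -/
theorem drop_two (A E : T.AV) {m : ℕ} (hA : T.dim A = 2 * m) (hE : T.dim E = 1)
    {L₀ : T.Z (T.prod A (T.prod E E))} (hL₀ : L₀ ∈ T.Pol (T.prod A (T.prod E E)))
    (h : HSC T.toCycleRings (T.prod A (T.prod E E)) L₀ (m + 1)) {L : T.Z A} (hL : L ∈ T.Pol A) :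
    HSC T.toCycleRings A L m := by
  obtain ⟨N, hN⟩ := T.pol_exists E
  have hdS := T.dim_prod E E
  have hdA := T.dim_prod A (T.prod E E)
  have hNS : T.p₁ E E N + T.p₂ E E N ∈ T.Pol (T.prod E E) := T.pol_prod' E E N N hN hN
  set M := T.p₁ E E N + T.p₂ E E N with hM
  have h' := indep _ hL₀ (T.pol_prod' A (T.prod E E) L M hL hNS) (by omega) h
  have hL1 := T.pol_mem A L hL
  have hN1 := T.pol_mem E N hN
  -- the class `s` on `E × E`
  set a := T.p₁ E E N with ha
  set b := T.p₂ E E N with hb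
  have haa : a * a = 0 := by
    rw [ha, ← map_mul]
    rw [T.cod_eq_zero E 2 (N * N) (by omega) (T.mul_mem E 1 1 _ _ hN1 hN1), map_zero]
  have hbb : b * b = 0 := by
    rw [hb, ← map_mul]
    rw [T.cod_eq_zero E 2 (N * N) (by omega) (T.mul_mem E 1 1 _ _ hN1 hN1), map_zero]
  set s := a - b with hs
  have hMs : M * s = 0 := by
    rw [hM, hs]
    linear_combination haa - hbb
  have ha1 : a ∈ T.cod (T.prod E E) 1 := T.p₁_mem E E 1 N hN1
  have hb1 : b ∈ T.cod (T.prod E E) 1 := T.p₂_mem E E 1 N hN1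
  have hs1 : s ∈ T.cod (T.prod E E) 1 := Submodule.sub_mem _ ha1 hb1
  have hNpos : 0 < T.deg E N := by
    have := T.pol_pos E N hN
    rwa [hE, pow_one] at this
  have hab : T.deg (T.prod E E) (a * b) = T.deg E N * T.deg E N :=
    T.deg_prod E E N N (by rw [hE]; exact hN1) (by rw [hE]; exact hN1)
  have hss : T.deg (T.prod E E) (s * s) = -(2 * (T.deg E N * T.deg E N)) := by
    have e1 : s * s = -((2 : ℚ) • (a * b)) := by
      rw [hs, Algebra.smul_def, map_ofNat]
      linear_combination haa + hbb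
    rw [e1, map_neg, map_smul, hab, smul_eq_mul]
  intro x hx hx0 hxp
  have hexp : T.dim A - 2 * m = 0 := by omega
  rw [hexp, zero_add, pow_one] at hxp
  set X := T.p₁ A (T.prod E E) x with hX
  set σ := T.p₂ A (T.prod E E) s with hσ
  have hdegX : ∀ y ∈ T.cod A m, ∀ w ∈ T.cod (T.prod E E) 1,
      T.deg _ (X * σ * (T.p₁ A (T.prod E E) y * T.p₂ A (T.prod E E) w)) =
        T.deg A (x * y) * T.deg (T.prod E E) (s * w) := by
    intro y hy w hw
    have e1 : X * σ * (T.p₁ A (T.prod E E) y * T.p₂ A (T.prod E E) w) =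
        T.p₁ A (T.prod E E) (x * y) * T.p₂ A (T.prod E E) (s * w) := by
      rw [map_mul, map_mul]; ring
    rw [e1, T.deg_prod]
    · exact mul_mem' A hx hy (by omega)
    · exact mul_mem' _ hs1 hw (by omega)
  have hmem : X * σ ∈ T.cod (T.prod A (T.prod E E)) (m + 1) :=
    T.mul_mem _ m 1 _ _ (T.p₁_mem _ _ m x hx) (T.p₂_mem _ _ 1 s hs1)
  have hne : X * σ ≠ 0 := by
    intro h0
    apply hx0
    refine T.num_eq A m m x (by omega) hx fun y hy => ?_
    have h1 := hdegX y hy s hs1
    rw [h0, zero_mul, map_zero, hss] at h1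
    have h2 : -(2 * (T.deg E N * T.deg E N)) ≠ 0 := by
      have : 0 < T.deg E N * T.deg E N := mul_pos hNpos hNpos
      linarith
    exact (mul_eq_zero.1 h1.symm).resolve_right h2
  have hprim : (T.p₁ A (T.prod E E) L + T.p₂ A (T.prod E E) M) * (X * σ) = 0 := by
    have e1 : (T.p₁ A (T.prod E E) L + T.p₂ A (T.prod E E) M) * (X * σ) =
        T.p₁ A (T.prod E E) (L * x) * σ + X * T.p₂ A (T.prod E E) (M * s) := by
      rw [map_mul, map_mul]; ring
    rw [e1, hxp, hMs, map_zero, map_zero, zero_mul, mul_zero, add_zero]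
  have hexp' : T.dim (T.prod A (T.prod E E)) - 2 * (m + 1) = 0 := by omega
  have hpos := h' (X * σ) hmem hne (by rw [hexp', zero_add, pow_one]; exact hprim)
  rw [hexp', pow_zero, mul_one] at hpos
  have h3 := hdegX x hx s hs1
  rw [← hX, ← hσ] at h3
  rw [h3, hss] at hpos
  rw [hexp, pow_zero, mul_one]
  have h4 : (-1 : ℚ) ^ (m + 1) * (T.deg A (x * x) * -(2 * (T.deg E N * T.deg E N))) =
      (2 * (T.deg E N * T.deg E N)) * ((-1) ^ m * T.deg A (x * x)) := by
    rw [pow_succ]; ring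
  rw [h4] at hpos
  have h5 : 0 < 2 * (T.deg E N * T.deg E N) := by
    have := mul_pos hNpos hNpos
    linarith
  exact (pos_iff_pos_of_mul_pos hpos).1 h5

/-- positivity of self-intersections of primitive classes orthogonal to intersections of
divisors, in the middle codimension and in dimension divisible by four, for one polarisation
on each abelian variety, implies everything -/
theorem of_four (h : ∀ (A : T.AV) (k : ℕ), T.dim A = 4 * k → ∃ L ∈ T.Pol A,
      ∀ x ∈ T.cod A (2 * k), x ≠ 0 → L * x = 0 →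
        (∀ y ∈ Lef T.toCycleRings A (2 * k), T.deg A (x * y) = 0) → 0 < T.deg A (x * x))
    (A : T.AV) {L : T.Z A} (hL : L ∈ T.Pol A) {n : ℕ} (hn : 2 * n ≤ T.dim A) : HSC T.toCycleRings A L n := by
  -- dimension divisible by four
  have h4 : ∀ (A : T.AV) (k : ℕ), T.dim A = 4 * k → ∃ L ∈ T.Pol A, HSC T.toCycleRings A L (2 * k) := by
    intro A k hk
    obtain ⟨L, hL, hx⟩ := h A k hk
    refine ⟨L, hL, of_exotic A hL (by omega) ?_⟩
    have hexp : T.dim A - 2 * (2 * k) = 0 := by omega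
    intro x hx1 hx2 hx3 hx4
    rw [hexp, zero_add, pow_one] at hx3
    rw [hexp, pow_zero, mul_one, pow_mul]
    norm_num
    refine hx x hx1 hx2 hx3 fun y hy => ?_
    have := hx4 y hy
    rwa [hexp, pow_zero, mul_one] at this
  -- even dimension
  have h2 : ∀ (A : T.AV) (m : ℕ), T.dim A = 2 * m → ∃ L ∈ T.Pol A, HSC T.toCycleRings A L m := by
    intro A m hm
    rcases Nat.even_or_odd' m with ⟨k, rfl | rfl⟩
    · exact h4 A k (by omega)
    · obtain ⟨E, hE⟩ := T.dim_exists 1
      have hdS := T.dim_prod E E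
      have hdA := T.dim_prod A (T.prod E E)
      obtain ⟨L₀, hL₀, hh⟩ := h4 (T.prod A (T.prod E E)) (k + 1) (by omega)
      obtain ⟨L, hL⟩ := T.pol_exists A
      exact ⟨L, hL, drop_two A E hm hE hL₀ (by
        rwa [show 2 * (k + 1) = 2 * k + 1 + 1 by ring] at hh) hL⟩
  obtain ⟨B, hB⟩ := T.dim_exists (T.dim A - 2 * n)
  have hdim := T.dim_prod A B
  obtain ⟨L₀, hL₀, hh⟩ := h2 (T.prod A B) (T.dim A - n) (by omega)
  exact middle A B hn hB hL₀ hh hL

end NumTheory

end Pc0b458
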