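import Pool.Agent.Lib.Pc0b458.Theory

/-!
# Independence of the polarisation
-/

open TensorProduct Polynomial

universe u

namespace Pc0b458

namespace NumTheory

variable {T : NumTheory.{u}}

/-- the real automorphism carrying one polarisation to another -/
theorem exists_real_aut (A : T.AV) {L L' : T.Z A} (hL : L ∈ T.Pol A) (hL' : L' ∈ T.Pol A) :
    ∃ (Ψ : ℝ ⊗[ℚ] T.Z A →ₐ[ℝ] ℝ ⊗[ℚ] T.Z A) (act act' : T.Z A →ₐ[ℚ] T.Z A) (ν : ℝ),
      (∀ z, Ψ (Ψ ((1 : ℝ) ⊗ₜ[ℚ] z)) = (1 : ℝ) ⊗ₜ[ℚ] (act z)) ∧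
      (∀ z, act (act' z) = z) ∧ (∀ z, act' (act z) = z) ∧
      (∀ i z, z ∈ T.cod A i → act' z ∈ T.cod A i) ∧
      Ψ ((1 : ℝ) ⊗ₜ[ℚ] L) = (1 : ℝ) ⊗ₜ[ℚ] L' ∧
      (∀ (i : ℕ) (e : T.Z A →ₗ[ℚ] T.Z A) (z : T.Z A), (∀ w ∈ T.cod A i, e w = w) →
        z ∈ T.cod A i → e.baseChange ℝ (Ψ ((1 : ℝ) ⊗ₜ[ℚ] z)) = Ψ ((1 : ℝ) ⊗ₜ[ℚ] z)) ∧
      0 ≤ ν ∧ (∀ z ∈ T.cod A (T.dim A), formR (T.deg A) (Ψ ((1 : ℝ) ⊗ₜ[ℚ] z)) =
        ν * (T.deg A z : ℝ)) := by
  classical
  let E := T.endo A
  let R := T.rosati A L hL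
  obtain ⟨P, S, hP, hS, hPS⟩ := R.iota_pos L' hL'
  have hL1 := T.pol_mem A L hL
  have hL1' := T.pol_mem A L' hL'
  set a := R.iota L' with ha
  -- the commutative algebra generated by `a`
  let C := ℚ[X] ⧸ Ideal.span {P}
  have hmonic : P.Monic := by
    have h1 : (P.map (algebraMap ℚ ℝ)).Monic := by
      rw [hPS]; exact monic_prod_of_monic _ _ fun x _ => monic_X_sub_C x
    exact Polynomial.monic_of_injective (algebraMap ℚ ℝ).injective h1
  have : Module.Finite ℚ C := hmonic.finite_quotient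
  let φ : C →ₐ[ℚ] E.D := Ideal.Quotient.liftₐ (Ideal.span {P}) (aeval a) (by
    intro q hq
    rw [Ideal.mem_span_singleton] at hq
    obtain ⟨r, rfl⟩ := hq
    rw [map_mul, hP, zero_mul])
  let aC : C := Ideal.Quotient.mk _ X
  have hφa : φ aC = a := by
    change Ideal.Quotient.liftₐ _ _ _ (Ideal.Quotient.mk _ X) = a
    rw [Ideal.Quotient.liftₐ_apply, Ideal.Quotient.lift_mk]
    exact aeval_X a
  have haC : aeval aC P = 0 := by
    have h1 : aeval aC P = (Ideal.Quotient.mkₐ ℚ (Ideal.span {P})) (aeval X P) := by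
      rw [← Polynomial.aeval_algHom_apply]; rfl
    rw [h1, aeval_X_left_apply]
    exact Ideal.Quotient.eq_zero_iff_mem.2 (Ideal.mem_span_singleton_self P)
  obtain ⟨b, hb⟩ := exists_sqrt aC P haC S hS hPS
  obtain ⟨a', ha'⟩ := exists_inv aC P haC S hS hPS
  -- symmetric elements
  have hros1 : R.ros 1 = 1 := by
    have := R.iota_sym L hL1
    rwa [R.iota_self] at this
  have hrosa : R.ros a = a := R.iota_sym L' hL1'
  have hrospow : ∀ k : ℕ, R.ros (a ^ k) = a ^ k := by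
    intro k
    induction k with
    | zero => rw [pow_zero, hros1]
    | succ k ih => rw [pow_succ, R.ros_mul, hrosa, ih, ← pow_succ', pow_succ]
  have hrosφ : ∀ c : C, R.ros (φ c) = φ c := by
    intro c
    obtain ⟨q, rfl⟩ := Ideal.Quotient.mk_surjective c
    have h1 : φ (Ideal.Quotient.mk _ q) = aeval a q := by
      change Ideal.Quotient.liftₐ _ _ _ (Ideal.Quotient.mk _ q) = _
      rw [Ideal.Quotient.liftₐ_apply, Ideal.Quotient.lift_mk]
      rfl
    rw [h1]
    induction q using Polynomial.induction_on' with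
    | add p q hp hq =>
      rw [map_add, map_add, hp, hq]
      · change Ideal.Quotient.liftₐ _ _ _ (Ideal.Quotient.mk _ q) = _
        rw [Ideal.Quotient.liftₐ_apply, Ideal.Quotient.lift_mk]; rfl
      · change Ideal.Quotient.liftₐ _ _ _ (Ideal.Quotient.mk _ p) = _
        rw [Ideal.Quotient.liftₐ_apply, Ideal.Quotient.lift_mk]; rfl
    | monomial k r =>
      rw [aeval_monomial, ← Algebra.smul_def, map_smul, hrospow]
  -- the linear section of `iota` on divisor classes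
  let ι₁ : T.cod A 1 →ₗ[ℚ] E.D := R.iota.comp (T.cod A 1).subtype
  have hι₁ : LinearMap.ker ι₁ = ⊥ := by
    rw [LinearMap.ker_eq_bot']
    intro M hM
    exact Subtype.ext (R.iota_inj M M.2 hM)
  obtain ⟨g, hg⟩ := LinearMap.exists_leftInverse_of_injective ι₁ hι₁
  have hg' : ∀ M ∈ T.cod A 1, ((g (R.iota M) : T.cod A 1) : T.Z A) = M := by
    intro M hM
    have := LinearMap.congr_fun hg ⟨M, hM⟩
    exact congrArg Subtype.val this
  let κ : C →ₗ[ℚ] T.Z A := (T.cod A 1).subtype.comp (g.comp φ.toLinearMap)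
  let act : C → (T.Z A →ₐ[ℚ] T.Z A) := fun c => E.pull (φ c)
  have hκ : ∀ c, act c L = κ (c * c) := by
    intro c
    have h1 : R.iota (act c L) = φ (c * c) := by
      change R.iota (E.pull (φ c) L) = _
      rw [R.iota_pull L hL1 (φ c), R.iota_self, hrosφ, mul_one, map_mul]
    have h2 := hg' (act c L) (E.pull_mem _ 1 _ hL1)
    rw [h1] at h2
    exact h2.symm
  have hκa : κ aC = L' := by
    have h2 := hg' L' hL1'
    change ((g (φ aC) : T.cod A 1) : T.Z A) = L'
    rw [hφa]; exact h2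
  obtain ⟨Ψ, h1, h2, h3, h4, h5⟩ := main_ext act
    (fun c c' z => by
      change E.pull (φ (c * c')) z = E.pull (φ c) (E.pull (φ c') z)
      rw [mul_comm, map_mul, E.pull_mul])
    (fun s v z => by
      obtain ⟨Q, hQ⟩ := E.pull_poly s (fun i => φ (v i)) z
      refine ⟨Q, fun t => ?_⟩
      refine Eq.trans ?_ (hQ t)
      change E.pull (φ _) z = _
      rw [map_sum]
      simp only [map_smul]) aC b hb
  have hdeg0 := T.pol_pos A L hL
  let o : T.Z A := (T.deg A (L ^ T.dim A))⁻¹ • L ^ T.dim A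
  have ho : o ∈ T.cod A (T.dim A) := Submodule.smul_mem _ _ (pow_mem A hL1 _)
  have hdo : T.deg A o = 1 := by
    simp only [o, map_smul, smul_eq_mul]
    exact inv_mul_cancel₀ hdeg0.ne'
  refine ⟨Ψ, act aC, act a', formR (T.deg A) (Ψ ((1 : ℝ) ⊗ₜ[ℚ] o)), h1, ?_, ?_, ?_, ?_, ?_, ?_, ?_⟩
  · intro z
    change E.pull (φ aC) (E.pull (φ a') z) = z
    rw [← E.pull_mul, ← map_mul, mul_comm, ha', map_one, E.pull_one]
  · intro z
    change E.pull (φ a') (E.pull (φ aC) z) = z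
    rw [← E.pull_mul, ← map_mul, ha', map_one, E.pull_one]
  · intro i z hz
    exact E.pull_mem _ i z hz
  · rw [h2 L κ hκ, hκa]
  · intro i e z he hz
    exact h3 e z fun c => he _ (E.pull_mem _ i z hz)
  · exact h5 (T.deg A) o fun c => by
      change 0 ≤ T.deg A (E.pull (φ c) o)
      rw [E.deg_pull _ _ ho, hdo, mul_one]
      exact E.edeg_nonneg _
  · intro z hz
    exact h4 (T.deg A) o z (T.deg A z) fun c => by
      change T.deg A (E.pull (φ c) z) = T.deg A (E.pull (φ c) o) * _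
      rw [E.deg_pull _ _ hz, E.deg_pull _ _ ho, hdo, mul_one]

/-- The positivity does not depend on the polarisation. -/
theorem indep (A : T.AV) {L L' : T.Z A} (hL : L ∈ T.Pol A) (hL' : L' ∈ T.Pol A) {n : ℕ}
    (hn : 2 * n ≤ T.dim A) (h : HSC T.toCycleRings A L n) : HSC T.toCycleRings A L' n := by
  classical
  obtain ⟨Ψ, act, act', ν, h1, h2, h3, h4, h5, h6, h7, h8⟩ := exists_real_aut A hL hL'
  refine pos_of_psd A hL' hn fun x hx hxp => ?_
  set m := T.dim A - 2 * n + 1 with hm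
  set K := L ^ (T.dim A - 2 * n) with hK
  have hL1 := T.pol_mem A L hL
  -- injectivity of `Ψ`
  have hΨΨ : ∀ w, Ψ (Ψ w) = act.toLinearMap.baseChange ℝ w := by
    intro w
    induction w using TensorProduct.induction_on with
    | zero => simp only [map_zero]
    | add u v hu hv => rw [map_add, map_add, hu, hv, map_add]
    | tmul r z =>
      have e1 : r ⊗ₜ[ℚ] z = r • ((1 : ℝ) ⊗ₜ[ℚ] z) := by
        rw [TensorProduct.smul_tmul', smul_eq_mul, mul_one]
      rw [e1, map_smul, map_smul, h1, map_smul, LinearMap.baseChange_tmul]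
      rfl
  have hinj : ∀ w, Ψ w = 0 → w = 0 := by
    intro w hw
    have e1 : act'.toLinearMap.baseChange ℝ (act.toLinearMap.baseChange ℝ w) = w := by
      rw [← LinearMap.comp_apply, ← LinearMap.baseChange_comp]
      have : act'.toLinearMap ∘ₗ act.toLinearMap = LinearMap.id := by
        ext z; exact h3 z
      rw [this, LinearMap.baseChange_id, LinearMap.id_apply]
    rw [← e1, ← hΨΨ, hw, map_zero, map_zero]
  set γ := act' x with hγ
  have hγm : γ ∈ T.cod A n := h4 n x hx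
  set β := Ψ ((1 : ℝ) ⊗ₜ[ℚ] γ) with hβ
  have hΨβ : Ψ β = (1 : ℝ) ⊗ₜ[ℚ] x := by rw [hβ, h1, hγ, h2]
  have hpowL : ∀ k : ℕ, Ψ ((1 : ℝ) ⊗ₜ[ℚ] (L ^ k)) = (1 : ℝ) ⊗ₜ[ℚ] (L' ^ k) := by
    intro k
    have e1 : (1 : ℝ) ⊗ₜ[ℚ] (L ^ k) = ((1 : ℝ) ⊗ₜ[ℚ] L) ^ k := by
      rw [Algebra.TensorProduct.tmul_pow, one_pow]
    rw [e1, map_pow, h5, Algebra.TensorProduct.tmul_pow, one_pow]
  -- `β` is primitive
  have hβp : ((1 : ℝ) ⊗ₜ[ℚ] (L ^ m)) * β = 0 := by
    apply hinj
    rw [map_mul, hpowL, hΨβ, Algebra.TensorProduct.tmul_mul_tmul, hxp, TensorProduct.tmul_zero]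
  -- `β` comes from codimension `n`
  obtain ⟨e', he'⟩ := LinearMap.exists_leftInverse_of_injective (T.cod A n).subtype
    (LinearMap.ker_eq_bot.2 (T.cod A n).injective_subtype)
  have he'' : ∀ w ∈ T.cod A n, ((T.cod A n).subtype ∘ₗ e') w = w := by
    intro w hw
    have := LinearMap.congr_fun he' ⟨w, hw⟩
    exact congrArg Subtype.val this
  have hβe : ((T.cod A n).subtype ∘ₗ e').baseChange ℝ β = β := h6 n _ γ he'' hγm
  set y := LinearMap.lTensor ℝ e' β with hy
  have hsy : LinearMap.lTensor ℝ (T.cod A n).subtype y = β := by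
    rw [hy, ← LinearMap.comp_apply, ← LinearMap.lTensor_comp]
    exact hβe
  let f : T.cod A n →ₗ[ℚ] T.Z A := (LinearMap.mulLeft ℚ (L ^ m)) ∘ₗ (T.cod A n).subtype
  have hf : ∀ y' : ℝ ⊗[ℚ] (T.cod A n), LinearMap.lTensor ℝ f y' =
      ((1 : ℝ) ⊗ₜ[ℚ] (L ^ m)) * LinearMap.lTensor ℝ (T.cod A n).subtype y' := by
    intro y'
    induction y' using TensorProduct.induction_on with
    | zero => simp only [map_zero, mul_zero]
    | add u v hu hv => rw [map_add, map_add, hu, hv, mul_add]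
    | tmul r z =>
      rw [LinearMap.lTensor_tmul, LinearMap.lTensor_tmul, Algebra.TensorProduct.tmul_mul_tmul,
        one_mul]
      rfl
  have hfy : LinearMap.lTensor ℝ f y = 0 := by
    rw [hf, hsy, hβp]
  have hpos : ∀ v : T.cod A n, f v = 0 → 0 ≤ (((-1 : ℚ) ^ n) • T.deg A)
      ((T.cod A n).subtype v * (T.cod A n).subtype v * K) := by
    intro v hv
    rw [LinearMap.smul_apply, smul_eq_mul]
    by_cases h0 : (T.cod A n).subtype v = 0
    · rw [h0, zero_mul, zero_mul, map_zero, mul_zero]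
    · exact (h _ v.2 h0 hv).le
  have hpsd := psd_ker f (T.cod A n).subtype (((-1 : ℚ) ^ n) • T.deg A) K hpos y hfy
  rw [hsy] at hpsd
  have hformR : ∀ w, formR (((-1 : ℚ) ^ n) • T.deg A) w = (-1) ^ n * formR (T.deg A) w := by
    intro w
    induction w using TensorProduct.induction_on with
    | zero => simp only [map_zero, mul_zero]
    | add u v hu hv => rw [map_add, map_add, hu, hv, mul_add]
    | tmul r z =>
      rw [formR_tmul, formR_tmul, LinearMap.smul_apply, smul_eq_mul]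
      push_cast
      ring
  rw [hformR] at hpsd
  -- comparison of degrees
  have hcomp : ∀ y₁ y₂ : ℝ ⊗[ℚ] (T.cod A n),
      formR (T.deg A) (Ψ (LinearMap.lTensor ℝ (T.cod A n).subtype y₁ *
        LinearMap.lTensor ℝ (T.cod A n).subtype y₂ * ((1 : ℝ) ⊗ₜ[ℚ] K))) =
      ν * formR (T.deg A) (LinearMap.lTensor ℝ (T.cod A n).subtype y₁ *
        LinearMap.lTensor ℝ (T.cod A n).subtype y₂ * ((1 : ℝ) ⊗ₜ[ℚ] K)) := by
    intro y₁ y₂
    induction y₁ using TensorProduct.induction_on with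
    | zero => simp only [map_zero, zero_mul, mul_zero]
    | add u v hu hv => rw [map_add, add_mul, add_mul, map_add, map_add, map_add, hu, hv, mul_add]
    | tmul r z =>
      induction y₂ using TensorProduct.induction_on with
      | zero => simp only [map_zero, zero_mul, mul_zero]
      | add u v hu hv => rw [map_add, mul_add, add_mul, map_add, map_add, map_add, hu, hv, mul_add]
      | tmul r' z' =>
        rw [LinearMap.lTensor_tmul, LinearMap.lTensor_tmul, Algebra.TensorProduct.tmul_mul_tmul,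
          Algebra.TensorProduct.tmul_mul_tmul, mul_one]
        have e1 : ∀ (q : ℝ) (w : T.Z A), q ⊗ₜ[ℚ] w = q • ((1 : ℝ) ⊗ₜ[ℚ] w) := by
          intro q w
          rw [TensorProduct.smul_tmul', smul_eq_mul, mul_one]
        rw [e1, map_smul, map_smul, map_smul, h8, formR_tmul]
        · simp only [smul_eq_mul]; ring
        · exact mul_mem' A (T.mul_mem A n n _ _ z.2 z'.2) (pow_mem A hL1 _) (by omega)
  have h9 := hcomp y y
  rw [hsy, map_mul Ψ, map_mul Ψ, hΨβ, hK, hpowL, Algebra.TensorProduct.tmul_mul_tmul,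
    Algebra.TensorProduct.tmul_mul_tmul, one_mul, one_mul, formR_tmul, one_mul] at h9
  have h10 : (0 : ℝ) ≤ (-1) ^ n * (T.deg A (x * x * L' ^ (T.dim A - 2 * n)) : ℝ) := by
    rw [h9]
    have : (-1 : ℝ) ^ n * (ν * formR (T.deg A)
        (β * β * ((1 : ℝ) ⊗ₜ[ℚ] (L ^ (T.dim A - 2 * n))))) = ν * ((-1) ^ n * formR (T.deg A)
        (β * β * ((1 : ℝ) ⊗ₜ[ℚ] (L ^ (T.dim A - 2 * n))))) := by ring
    rw [this]
    exact mul_nonneg h7 hpsd
  exact_mod_cast h10

end NumTheory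

end Pc0b458
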