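import Mathlib

/-!
Extension of a polynomial action of a commutative `ℚ`-algebra `C` on a `ℚ`-algebra `Z`
to real coefficients, at a real point which is a square root of a rational element.
-/

open TensorProduct

namespace Pc0b458

/-- finite dimensional real spaces with the module topology are Hausdorff -/
theorem t2_of_module (W : Type*) [AddCommGroup W] [Module ℝ W] [Module.Finite ℝ W]
    [TopologicalSpace W] [IsModuleTopology ℝ W] : T2Space W := by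
  have hc : Continuous (Module.finBasis ℝ W).equivFun.toLinearMap :=
    IsModuleTopology.continuous_of_linearMap (R := ℝ) _
  exact T2Space.of_injective_continuous (Module.finBasis ℝ W).equivFun.injective hc

theorem denseRange_ratCast (s : ℕ) :
    DenseRange (fun (t : Fin s → ℚ) (i : Fin s) => ((t i : ℚ) : ℝ)) := by
  have h : DenseRange ((↑) : ℚ → ℝ) := Rat.denseRange_cast
  exact DenseRange.piMap fun _ => h

/-- two continuous functions agreeing on rational points agree -/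
theorem eq_of_rat {s : ℕ} {W : Type*} [TopologicalSpace W] [T2Space W]
    {f g : (Fin s → ℝ) → W} (hf : Continuous f) (hg : Continuous g)
    (h : ∀ t : Fin s → ℚ, f (fun i => (t i : ℝ)) = g (fun i => (t i : ℝ)))
    (t : Fin s → ℝ) : f t = g t := by
  have := DenseRange.equalizer (denseRange_ratCast s) hf hg (by
    funext t; exact h t)
  exact congrFun this t

theorem nonneg_of_rat {s : ℕ} {f : (Fin s → ℝ) → ℝ} (hf : Continuous f)
    (h : ∀ t : Fin s → ℚ, 0 ≤ f (fun i => (t i : ℝ))) (t : Fin s → ℝ) : 0 ≤ f t := by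
  have hcl : IsClosed {t | 0 ≤ f t} := isClosed_le continuous_const hf
  have hsub : Set.range (fun (t : Fin s → ℚ) (i : Fin s) => ((t i : ℚ) : ℝ)) ⊆ {t | 0 ≤ f t} := by
    rintro _ ⟨t, rfl⟩; exact h t
  have := (hcl.closure_subset_iff.2 hsub) (denseRange_ratCast s t)
  exact this

section Ext

variable {Z : Type*} [CommRing Z] [Algebra ℚ Z] [Module.Finite ℚ Z]

/-- the value at a real point of a polynomial with coefficients in `Z` -/
noncomputable def evR {s : ℕ} (P : MvPolynomial (Fin s) Z) (t : Fin s → ℝ) : ℝ ⊗[ℚ] Z :=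
  MvPolynomial.eval₂ (Algebra.TensorProduct.includeRight : Z →ₐ[ℚ] ℝ ⊗[ℚ] Z).toRingHom
    (fun i => (t i) ⊗ₜ[ℚ] (1 : Z)) P

omit [Module.Finite ℚ Z] in
theorem evR_rat {s : ℕ} (P : MvPolynomial (Fin s) Z) (t : Fin s → ℚ) :
    evR P (fun i => (t i : ℝ)) =
      (1 : ℝ) ⊗ₜ[ℚ] (MvPolynomial.eval (fun i => algebraMap ℚ Z (t i)) P) := by
  unfold evR
  have h1 : (fun i => ((t i : ℚ) : ℝ) ⊗ₜ[ℚ] (1 : Z)) =
      fun i => (Algebra.TensorProduct.includeRight : Z →ₐ[ℚ] ℝ ⊗[ℚ] Z).toRingHom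
        (algebraMap ℚ Z (t i)) := by
    funext i
    change _ = (1 : ℝ) ⊗ₜ[ℚ] (algebraMap ℚ Z (t i))
    rw [Algebra.algebraMap_eq_smul_one, TensorProduct.tmul_smul, TensorProduct.smul_tmul',
      Rat.smul_def, mul_one]
  rw [h1]
  have h2 := MvPolynomial.eval₂_comp_left
    (Algebra.TensorProduct.includeRight : Z →ₐ[ℚ] ℝ ⊗[ℚ] Z).toRingHom (RingHom.id Z)
    (fun i => algebraMap ℚ Z (t i)) P
  rw [RingHom.comp_id] at h2
  exact h2.symm

variable [TopologicalSpace (ℝ ⊗[ℚ] Z)] [IsModuleTopology ℝ (ℝ ⊗[ℚ] Z)]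

omit [TopologicalSpace (ℝ ⊗[ℚ] Z)] [IsModuleTopology ℝ (ℝ ⊗[ℚ] Z)] [Module.Finite ℚ Z] in
theorem evR_eq {s : ℕ} (P : MvPolynomial (Fin s) Z) (t : Fin s → ℝ) :
    evR P t = ∑ d ∈ P.support, ((1 : ℝ) ⊗ₜ[ℚ] (P.coeff d)) *
        ∏ i, ((t i) ⊗ₜ[ℚ] (1 : Z)) ^ d i := by
  unfold evR
  rw [MvPolynomial.eval₂_eq']
  rfl

omit [Module.Finite ℚ Z] in
theorem tmul_one_continuous {s : ℕ} (i : Fin s) :
    Continuous fun t : Fin s → ℝ => (t i) ⊗ₜ[ℚ] (1 : Z) := by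
  have h1 : Continuous (fun r : ℝ => r ⊗ₜ[ℚ] (1 : Z)) := by
    have : (fun r : ℝ => r ⊗ₜ[ℚ] (1 : Z)) = fun r : ℝ => r • ((1 : ℝ) ⊗ₜ[ℚ] (1 : Z)) := by
      funext r; rw [TensorProduct.smul_tmul', smul_eq_mul, mul_one]
    rw [this]
    have h2 : Continuous (fun _ : ℝ => (1 : ℝ) ⊗ₜ[ℚ] (1 : Z)) := continuous_const
    exact continuous_id.smul h2
  exact h1.comp (continuous_apply i)

theorem evR_continuous {s : ℕ} (P : MvPolynomial (Fin s) Z) : Continuous (evR P) := by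
  have : IsTopologicalRing (ℝ ⊗[ℚ] Z) := IsModuleTopology.isTopologicalRing ℝ _
  have h : evR P = fun t : Fin s → ℝ => ∑ d ∈ P.support, ((1 : ℝ) ⊗ₜ[ℚ] (P.coeff d)) *
        ∏ i, ((t i) ⊗ₜ[ℚ] (1 : Z)) ^ d i := funext (evR_eq P)
  rw [h]
  exact continuous_finsetSum _ fun d _ => continuous_const.mul
    (continuous_finsetProd _ fun i _ => (tmul_one_continuous i).pow _)

/-- real extension of a rational linear form -/
noncomputable def formR (δ : Z →ₗ[ℚ] ℚ) : ℝ ⊗[ℚ] Z →ₗ[ℝ] ℝ :=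
  (TensorProduct.AlgebraTensorModule.rid ℚ ℝ ℝ).toLinearMap ∘ₗ δ.baseChange ℝ

omit [Module.Finite ℚ Z] [TopologicalSpace (ℝ ⊗[ℚ] Z)] [IsModuleTopology ℝ (ℝ ⊗[ℚ] Z)] in
theorem formR_tmul (δ : Z →ₗ[ℚ] ℚ) (x : ℝ) (z : Z) :
    formR δ (x ⊗ₜ[ℚ] z) = x * (δ z : ℝ) := by
  simp only [formR, LinearMap.comp_apply, LinearMap.baseChange_tmul, LinearEquiv.coe_coe,
    TensorProduct.AlgebraTensorModule.rid_tmul, Rat.smul_def]
  ring

end Ext

section Main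

variable {Z : Type*} [CommRing Z] [Algebra ℚ Z] [Module.Finite ℚ Z]
variable {C : Type*} [CommRing C] [Algebra ℚ C] [Module.Finite ℚ C]

theorem main_ext (act : C → (Z →ₐ[ℚ] Z))
    (act_mul : ∀ c c' z, act (c * c') z = act c (act c' z))
    (hpoly : ∀ (s : ℕ) (v : Fin s → C) (z : Z), ∃ P : MvPolynomial (Fin s) Z,
      ∀ t : Fin s → ℚ, act (∑ i, t i • v i) z =
        MvPolynomial.eval (fun i => algebraMap ℚ Z (t i)) P)
    (a : C) (b : ℝ ⊗[ℚ] C) (hb : b * b = (1 : ℝ) ⊗ₜ[ℚ] a) :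
    ∃ Ψ : ℝ ⊗[ℚ] Z →ₐ[ℝ] ℝ ⊗[ℚ] Z,
      (∀ z, Ψ (Ψ ((1 : ℝ) ⊗ₜ[ℚ] z)) = (1 : ℝ) ⊗ₜ[ℚ] (act a z)) ∧
      (∀ (L : Z) (κ : C →ₗ[ℚ] Z), (∀ c, act c L = κ (c * c)) →
        Ψ ((1 : ℝ) ⊗ₜ[ℚ] L) = (1 : ℝ) ⊗ₜ[ℚ] (κ a)) ∧
      (∀ (e : Z →ₗ[ℚ] Z) (z : Z), (∀ c, e (act c z) = act c z) →
        e.baseChange ℝ (Ψ ((1 : ℝ) ⊗ₜ[ℚ] z)) = Ψ ((1 : ℝ) ⊗ₜ[ℚ] z)) ∧
      (∀ (δ : Z →ₗ[ℚ] ℚ) (o z : Z) (r : ℚ), (∀ c, δ (act c z) = δ (act c o) * r) →
        formR δ (Ψ ((1 : ℝ) ⊗ₜ[ℚ] z)) = formR δ (Ψ ((1 : ℝ) ⊗ₜ[ℚ] o)) * r) ∧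
      (∀ (δ : Z →ₗ[ℚ] ℚ) (o : Z), (∀ c, 0 ≤ δ (act c o)) →
        0 ≤ formR δ (Ψ ((1 : ℝ) ⊗ₜ[ℚ] o))) := by
  classical
  let _ : TopologicalSpace (ℝ ⊗[ℚ] Z) := moduleTopology ℝ (ℝ ⊗[ℚ] Z)
  have : IsModuleTopology ℝ (ℝ ⊗[ℚ] Z) := ⟨rfl⟩
  let _ : TopologicalSpace (ℝ ⊗[ℚ] C) := moduleTopology ℝ (ℝ ⊗[ℚ] C)
  have : IsModuleTopology ℝ (ℝ ⊗[ℚ] C) := ⟨rfl⟩
  have : IsTopologicalRing (ℝ ⊗[ℚ] Z) := IsModuleTopology.isTopologicalRing ℝ _
  have : IsTopologicalRing (ℝ ⊗[ℚ] C) := IsModuleTopology.isTopologicalRing ℝ _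
  have : T2Space (ℝ ⊗[ℚ] Z) := t2_of_module _
  have : T2Space (ℝ ⊗[ℚ] C) := t2_of_module _
  set s := Module.finrank ℚ C with hs
  let v : Module.Basis (Fin s) ℚ C := Module.finBasis ℚ C
  choose P hP using fun z => hpoly s v z
  -- the element of `C` with rational coordinates `t`
  let el : (Fin s → ℚ) → C := fun t => ∑ i, t i • v i
  let Φ : (Fin s → ℝ) → Z → ℝ ⊗[ℚ] Z := fun t z => evR (P z) t
  have hΦc : ∀ z, Continuous fun t => Φ t z := fun z => evR_continuous (P z)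
  have hΦr : ∀ (t : Fin s → ℚ) (z : Z), Φ (fun i => (t i : ℝ)) z = (1 : ℝ) ⊗ₜ[ℚ] (act (el t) z) := by
    intro t z
    change evR (P z) _ = _
    rw [evR_rat, hP]
  -- ring hom properties
  have hΦone : ∀ t, Φ t 1 = 1 := by
    refine eq_of_rat (hΦc 1) continuous_const fun t => ?_
    rw [hΦr, map_one]; rfl
  have hΦmul : ∀ z z' t, Φ t (z * z') = Φ t z * Φ t z' := by
    intro z z'
    refine eq_of_rat (hΦc _) ((hΦc z).mul (hΦc z')) fun t => ?_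
    rw [hΦr, hΦr, hΦr, map_mul, Algebra.TensorProduct.tmul_mul_tmul, one_mul]
  have hΦadd : ∀ z z' t, Φ t (z + z') = Φ t z + Φ t z' := by
    intro z z'
    refine eq_of_rat (hΦc _) ((hΦc z).add (hΦc z')) fun t => ?_
    rw [hΦr, hΦr, hΦr, map_add, TensorProduct.tmul_add]
  have hΦalg : ∀ (r : ℚ) t, Φ t (algebraMap ℚ Z r) = algebraMap ℚ (ℝ ⊗[ℚ] Z) r := by
    intro r
    refine eq_of_rat (hΦc _) continuous_const fun t => ?_
    rw [hΦr, AlgHom.commutes]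
    exact (Algebra.TensorProduct.includeRight : Z →ₐ[ℚ] ℝ ⊗[ℚ] Z).commutes r
  have hΦzero : ∀ t, Φ t 0 = 0 := by
    refine eq_of_rat (hΦc 0) continuous_const fun t => ?_
    rw [hΦr, map_zero, TensorProduct.tmul_zero]
  let φ : (Fin s → ℝ) → (Z →ₐ[ℚ] ℝ ⊗[ℚ] Z) := fun t =>
    { toFun := Φ t
      map_one' := hΦone t
      map_mul' := fun z z' => hΦmul z z' t
      map_zero' := hΦzero t
      map_add' := fun z z' => hΦadd z z' t
      commutes' := fun r => hΦalg r t }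
  let Ψ : (Fin s → ℝ) → (ℝ ⊗[ℚ] Z →ₐ[ℝ] ℝ ⊗[ℚ] Z) := fun t =>
    Algebra.TensorProduct.lift (Algebra.ofId ℝ (ℝ ⊗[ℚ] Z)) (φ t) (fun x y => mul_comm _ _)
  have hΨ : ∀ t x z, Ψ t (x ⊗ₜ[ℚ] z) = algebraMap ℝ (ℝ ⊗[ℚ] Z) x * Φ t z := by
    intro t x z
    simp only [Ψ, Algebra.TensorProduct.lift_tmul]
    rfl
  have hΨ1 : ∀ t z, Ψ t ((1 : ℝ) ⊗ₜ[ℚ] z) = Φ t z := by
    intro t z
    rw [hΨ, map_one, one_mul]
  -- coordinates
  let co : ℝ ⊗[ℚ] C ≃ₗ[ℝ] (Fin s → ℝ) := (v.baseChange ℝ).equivFun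
  let r : (Fin s → ℝ) → (Fin s → ℝ) := fun t => co (co.symm t * co.symm t)
  have hcoc : Continuous co.toLinearMap := IsModuleTopology.continuous_of_linearMap (R := ℝ) _
  have hcoc' : Continuous co.symm.toLinearMap := IsModuleTopology.continuous_of_linearMap (R := ℝ) _
  have hrc : Continuous r := hcoc.comp (hcoc'.mul hcoc')
  have hco_rat : ∀ c : C, co ((1 : ℝ) ⊗ₜ[ℚ] c) = fun i => ((v.repr c i : ℚ) : ℝ) := by
    intro c
    funext i
    simp only [co, Module.Basis.equivFun_apply]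
    simp [Module.Basis.baseChange_repr_tmul, Rat.smul_def]
  have hel : ∀ c : C, el (fun i => v.repr c i) = c := fun c => v.sum_repr c
  have hrepr_el : ∀ t : Fin s → ℚ, (fun i => v.repr (el t) i) = t := by
    intro t
    funext i
    have := congrFun (v.equivFun.apply_symm_apply t) i
    rw [Module.Basis.equivFun_symm_apply] at this
    exact this
  have hco_el : ∀ t : Fin s → ℚ, co.symm (fun i => (t i : ℝ)) = (1 : ℝ) ⊗ₜ[ℚ] (el t) := by
    intro t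
    rw [LinearEquiv.symm_apply_eq, hco_rat]
    funext i
    rw [congrFun (hrepr_el t) i]
  have hr_rat : ∀ t : Fin s → ℚ, r (fun i => (t i : ℝ)) =
      fun i => ((v.repr (el t * el t) i : ℚ) : ℝ) := by
    intro t
    simp only [r]
    rw [hco_el, Algebra.TensorProduct.tmul_mul_tmul, one_mul, hco_rat]
  have hΦrepr : ∀ (c : C) (z : Z), Φ (fun i => ((v.repr c i : ℚ) : ℝ)) z =
      (1 : ℝ) ⊗ₜ[ℚ] (act c z) := by
    intro c z
    rw [hΦr (fun i => v.repr c i) z, hel]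
  -- composition
  have hcont_comp : ∀ z, Continuous fun t => Ψ t (Φ t z) := by
    intro z
    have h1 : (fun t => Ψ t (Φ t z)) = fun t => ∑ d ∈ (P z).support, Φ t ((P z).coeff d) *
        ∏ i, ((t i) ⊗ₜ[ℚ] (1 : Z)) ^ d i := by
      funext t
      change Ψ t (evR (P z) t) = _
      rw [evR_eq, map_sum]
      refine Finset.sum_congr rfl fun d _ => ?_
      rw [map_mul, hΨ1, map_prod]
      congr 1
      refine Finset.prod_congr rfl fun i _ => ?_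
      rw [map_pow, hΨ, hΦone, mul_one]
      rfl
    rw [h1]
    exact continuous_finsetSum _ fun d _ => (hΦc _).mul
      (continuous_finsetProd _ fun i _ => (tmul_one_continuous i).pow _)
  have hcomp : ∀ z t, Ψ t (Φ t z) = Φ (r t) z := by
    intro z
    refine eq_of_rat (hcont_comp z) ((hΦc z).comp hrc) fun t => ?_
    rw [hΦr, hΨ1, hΦr, hr_rat, hΦrepr, act_mul]
  let t₀ : Fin s → ℝ := co b
  have ht₀ : co.symm t₀ = b := co.symm_apply_apply b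
  have hr₀ : r t₀ = fun i => ((v.repr a i : ℚ) : ℝ) := by
    simp only [r]
    rw [ht₀, hb, hco_rat]
  refine ⟨Ψ t₀, ?_, ?_, ?_, ?_, ?_⟩
  · intro z
    rw [hΨ1, hcomp, hr₀, hΦrepr]
  · intro L κ hκ
    rw [hΨ1]
    have h1 : ∀ t, Φ t L = κ.baseChange ℝ (co.symm t * co.symm t) := by
      refine eq_of_rat (hΦc L) ?_ fun t => ?_
      · have hκc : Continuous (κ.baseChange ℝ) :=
          IsModuleTopology.continuous_of_linearMap (R := ℝ) _
        exact hκc.comp (hcoc'.mul hcoc')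
      · rw [hΦr, hco_el, Algebra.TensorProduct.tmul_mul_tmul, one_mul, LinearMap.baseChange_tmul,
          hκ]
    rw [h1, ht₀, hb, LinearMap.baseChange_tmul]
  · intro e z he
    rw [hΨ1]
    have hec : Continuous (e.baseChange ℝ) := IsModuleTopology.continuous_of_linearMap (R := ℝ) _
    exact eq_of_rat (hec.comp (hΦc z)) (hΦc z) (fun t => by
      change e.baseChange ℝ (Φ _ z) = _
      rw [hΦr, LinearMap.baseChange_tmul, he]) t₀
  · intro δ o z q hδ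
    rw [hΨ1, hΨ1]
    have hdc : Continuous (formR δ) := IsModuleTopology.continuous_of_linearMap (R := ℝ) _
    exact eq_of_rat (hdc.comp (hΦc z)) ((hdc.comp (hΦc o)).mul continuous_const) (fun t => by
      change formR δ (Φ _ z) = formR δ (Φ _ o) * _
      rw [hΦr, hΦr, formR_tmul, formR_tmul, one_mul, one_mul, hδ]; push_cast; ring) t₀
  · intro δ o hδ
    rw [hΨ1]
    have hdc : Continuous (formR δ) := IsModuleTopology.continuous_of_linearMap (R := ℝ) _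
    exact nonneg_of_rat (hdc.comp (hΦc o)) (fun t => by
      change 0 ≤ formR δ (Φ _ o)
      rw [hΦr, formR_tmul, one_mul]; exact_mod_cast hδ _) t₀

end Main

end Pc0b458
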