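import Pool.Agent.Lib.Pc0b458.Indep

/-!
# Reduction to the middle codimension, to Jacobians, and to exotic classes
-/

universe u

namespace Pc0b458

variable (T : NumTheory.{u})

namespace NumTheory

variable {T}

/-! ### Products: middle codimension -/

theorem middle (A B : T.AV) {n : ℕ} (hn : 2 * n ≤ T.dim A) (hB : T.dim B = T.dim A - 2 * n)
    {L₀ : T.Z (T.prod A B)} (hL₀ : L₀ ∈ T.Pol (T.prod A B))
    (h : HSC T.toCycleRings (T.prod A B) L₀ (T.dim A - n)) {L : T.Z A} (hL : L ∈ T.Pol A) :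
    HSC T.toCycleRings A L n := by
  obtain ⟨M, hM⟩ := T.pol_exists B
  have hdim := T.dim_prod A B
  set r := T.dim A - 2 * n with hr
  have hmid : 2 * (T.dim A - n) ≤ T.dim (T.prod A B) := by omega
  have h' := indep (T.prod A B) hL₀ (T.pol_prod' A B L M hL hM) hmid h
  have hL1 := T.pol_mem A L hL
  have hM1 := T.pol_mem B M hM
  intro x hx hx0 hxp
  have hexp0 : T.dim (T.prod A B) - 2 * (T.dim A - n) = 0 := by omega
  set u := T.p₁ A B L with hu
  set v := T.p₂ A B M with hv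
  set X := T.p₁ A B x with hX
  have hu1 : u ∈ T.cod (T.prod A B) 1 := T.p₁_mem A B 1 L hL1
  have hv1 : v ∈ T.cod (T.prod A B) 1 := T.p₂_mem A B 1 M hM1
  have hXn : X ∈ T.cod (T.prod A B) n := T.p₁_mem A B n x hx
  have huX : u ^ (r + 1) * X = 0 := by
    rw [hu, hX, ← map_pow, ← map_mul, hxp, map_zero]
  have hvr : v ^ (r + 1) = 0 := by
    rw [hv, ← map_pow]
    rw [T.cod_eq_zero B (r + 1) (M ^ (r + 1)) (by omega) (pow_mem B hM1 _), map_zero]
  set Γ := ∑ i ∈ Finset.range (r + 1), (-u) ^ i * v ^ (r + 1 - 1 - i) with hΓ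
  have hgeom : Γ * (-u - v) = (-u) ^ (r + 1) - v ^ (r + 1) := (Commute.all (-u) v).geom_sum₂_mul _
  have hnegu : (-u) ^ (r + 1) * X = 0 := by
    rw [neg_pow, mul_assoc, huX, mul_zero]
  have hprim : (u + v) * (Γ * X) = 0 := by
    have : (u + v) * (Γ * X) = -((Γ * (-u - v)) * X) := by ring
    rw [this, hgeom, sub_mul, hnegu, hvr, zero_mul, sub_self, neg_zero]
  have hshift : (-u) * (Γ * X) = v * (Γ * X) := by linear_combination -hprim
  have hΓ1 : ∀ i : ℕ, (-u) ^ i * (Γ * X) = v ^ i * (Γ * X) := by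
    intro i
    induction i with
    | zero => simp
    | succ i ih =>
      rw [pow_succ, pow_succ]
      calc (-u) ^ i * -u * (Γ * X) = (-u) ^ i * ((-u) * (Γ * X)) := by ring
        _ = (-u) ^ i * (v * (Γ * X)) := by rw [hshift]
        _ = v * ((-u) ^ i * (Γ * X)) := by ring
        _ = v ^ i * v * (Γ * X) := by rw [ih]; ring
  have hΓΓ : Γ * (Γ * X) = (r + 1 : ℚ) • (v ^ r * (Γ * X)) := by
    have e1 : Γ * (Γ * X) = ∑ i ∈ Finset.range (r + 1), v ^ r * (Γ * X) := by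
      conv_lhs => rw [hΓ]
      rw [Finset.sum_mul]
      refine Finset.sum_congr rfl fun i hi => ?_
      have hi' : i ≤ r := Nat.lt_succ_iff.1 (Finset.mem_range.1 hi)
      have e2 : r + 1 - 1 - i = r - i := by omega
      rw [← hΓ, e2]
      calc (-u) ^ i * v ^ (r - i) * (Γ * X) = v ^ (r - i) * ((-u) ^ i * (Γ * X)) := by ring
        _ = v ^ (r - i) * (v ^ i * (Γ * X)) := by rw [hΓ1]
        _ = v ^ r * (Γ * X) := by
            rw [← mul_assoc, ← pow_add, Nat.sub_add_cancel hi']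
    rw [e1, Finset.sum_const, Finset.card_range, ← Nat.cast_smul_eq_nsmul ℚ]
    push_cast
    rfl
  have hvΓ : v ^ r * Γ = (-1 : ℚ) ^ r • (u ^ r * v ^ r) := by
    rw [hΓ, Finset.mul_sum, Finset.sum_eq_single r]
    · rw [show r + 1 - 1 - r = 0 by omega, pow_zero, mul_one, neg_pow, Algebra.smul_def,
        map_pow, map_neg, map_one]
      ring
    · intro i hi hir
      have hi' : i ≤ r := Nat.lt_succ_iff.1 (Finset.mem_range.1 hi)
      have e2 : r + 1 - 1 - i = (r - i - 1) + 1 := by omega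
      rw [e2]
      calc v ^ r * ((-u) ^ i * v ^ (r - i - 1 + 1)) =
          (-u) ^ i * v ^ (r - i - 1) * v ^ (r + 1) := by ring
        _ = 0 := by rw [hvr, mul_zero]
    · intro hr'
      exact absurd (Finset.mem_range.2 (Nat.lt_succ_self r)) hr'
  -- the degree computations
  have hdegM : 0 < T.deg B (M ^ r) := by
    have := T.pol_pos B M hM
    rwa [hB] at this
  have hMr : M ^ r ∈ T.cod B (T.dim B) := by rw [hB]; exact pow_mem B hM1 _
  have hdeg1 : ∀ y ∈ T.cod A n, T.deg (T.prod A B) (v ^ r * (Γ * (X * T.p₁ A B y))) =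
      (-1) ^ r * (T.deg A (x * y * L ^ r) * T.deg B (M ^ r)) := by
    intro y hy
    have e1 : v ^ r * (Γ * (X * T.p₁ A B y)) =
        (-1 : ℚ) ^ r • (T.p₁ A B (x * y * L ^ r) * T.p₂ A B (M ^ r)) := by
      rw [← mul_assoc, hvΓ, smul_mul_assoc, map_mul, map_mul, map_pow, map_pow]
      congr 1
      ring
    rw [e1, map_smul, smul_eq_mul, T.deg_prod A B _ _ _ hMr]
    exact mul_mem' A (T.mul_mem A n n _ _ hx hy) (pow_mem A hL1 _) (by omega)
  -- the class `γ`
  have hγmem : Γ * X ∈ T.cod (T.prod A B) (T.dim A - n) := by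
    have hΓmem : Γ ∈ T.cod (T.prod A B) r := by
      refine Submodule.sum_mem _ fun i hi => ?_
      have hi' : i ≤ r := Nat.lt_succ_iff.1 (Finset.mem_range.1 hi)
      exact mul_mem' _ (pow_mem _ (Submodule.neg_mem _ hu1) _) (pow_mem _ hv1 _) (by omega)
    exact mul_mem' _ hΓmem hXn (by omega)
  have hγ0 : Γ * X ≠ 0 := by
    intro hγ
    apply hx0
    refine nondeg A hL hn hx hxp fun y hy _ => ?_
    have h1 := hdeg1 y hy
    have e1 : v ^ r * (Γ * (X * T.p₁ A B y)) = v ^ r * T.p₁ A B y * (Γ * X) := by ring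
    rw [e1, hγ, mul_zero, map_zero] at h1
    have h2 : (-1 : ℚ) ^ r ≠ 0 := pow_ne_zero _ (by norm_num)
    have h3 := (mul_eq_zero.1 h1.symm).resolve_left h2
    exact (mul_eq_zero.1 h3).resolve_right hdegM.ne'
  have hpos := h' (Γ * X) hγmem hγ0 (by rw [hexp0, zero_add, pow_one]; exact hprim)
  rw [hexp0, pow_zero, mul_one] at hpos
  have e3 : Γ * X * (Γ * X) = (r + 1 : ℚ) • (v ^ r * (Γ * (X * X))) := by
    calc Γ * X * (Γ * X) = (Γ * (Γ * X)) * X := by ring
      _ = ((r + 1 : ℚ) • (v ^ r * (Γ * X))) * X := by rw [hΓΓ]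
      _ = (r + 1 : ℚ) • (v ^ r * (Γ * (X * X))) := by rw [smul_mul_assoc]; ring_nf
  rw [e3, map_smul, smul_eq_mul] at hpos
  have h5 := hdeg1 x hx
  rw [← hX] at h5
  rw [h5] at hpos
  have hsgn : (-1 : ℚ) ^ (T.dim A - n) * (-1) ^ r = (-1) ^ n := by
    rw [← pow_add, show T.dim A - n + r = n + 2 * r by omega, pow_add, pow_mul]
    norm_num
  have h6 : (-1 : ℚ) ^ (T.dim A - n) * ((r + 1 : ℚ) * ((-1) ^ r *
      (T.deg A (x * x * L ^ r) * T.deg B (M ^ r)))) =
      ((r + 1 : ℚ) * T.deg B (M ^ r)) * ((-1) ^ n * T.deg A (x * x * L ^ r)) := by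
    rw [← hsgn]; ring
  rw [h6] at hpos
  have h7 : 0 < ((r : ℚ) + 1) * T.deg B (M ^ r) := by positivity
  exact (pos_iff_pos_of_mul_pos hpos).1 h7

end NumTheory

end Pc0b458
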