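import Pool.Agent.Lib.Pc0b458.Reduce

/-!
# Direct factors and exotic classes
-/

universe u

namespace Pc0b458

namespace NumTheory

variable {T : NumTheory.{u}}

theorem pow_zero_of_le {R : Type*} [CommRing R] {v X : R} {k i : ℕ} (h : v ^ k * X = 0)
    (hi : k ≤ i) : v ^ i * X = 0 := by
  obtain ⟨j, rfl⟩ := Nat.exists_eq_add_of_le hi
  rw [pow_add, mul_comm (v ^ k), mul_assoc, h, mul_zero]

/-- positivity passes to direct factors -/
theorem factor (A B : T.AV) {n : ℕ} (hn : 2 * n ≤ T.dim A)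
    {L₀ : T.Z (T.prod A B)} (hL₀ : L₀ ∈ T.Pol (T.prod A B))
    (h : HSC T.toCycleRings (T.prod A B) L₀ n) {L : T.Z A} (hL : L ∈ T.Pol A) :
    HSC T.toCycleRings A L n := by
  obtain ⟨M, hM⟩ := T.pol_exists B
  have hdim := T.dim_prod A B
  have h' := indep (T.prod A B) hL₀ (T.pol_prod' A B L M hL hM) (by omega) h
  have hL1 := T.pol_mem A L hL
  have hM1 := T.pol_mem B M hM
  intro x hx hx0 hxp
  set r := T.dim A - 2 * n with hr
  set s := T.dim B with hs
  have hN : T.dim (T.prod A B) - 2 * n = r + s := by omega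
  set u := T.p₁ A B L with hu
  set v := T.p₂ A B M with hv
  set X := T.p₁ A B x with hX
  have hXn : X ∈ T.cod (T.prod A B) n := T.p₁_mem A B n x hx
  have huX : u ^ (r + 1) * X = 0 := by
    rw [hu, hX, ← map_pow, ← map_mul, hxp, map_zero]
  have hvs : v ^ (s + 1) * 1 = 0 := by
    rw [hv, ← map_pow, mul_one]
    rw [T.cod_eq_zero B (s + 1) (M ^ (s + 1)) (by omega) (pow_mem B hM1 _), map_zero]
  have hprim : (u + v) ^ (r + s + 1) * X = 0 := by
    rw [add_pow, Finset.sum_mul]
    refine Finset.sum_eq_zero fun i hi => ?_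
    by_cases hir : r + 1 ≤ i
    · calc u ^ i * v ^ (r + s + 1 - i) * ((r + s + 1).choose i : T.Z (T.prod A B)) * X =
          v ^ (r + s + 1 - i) * ((r + s + 1).choose i : T.Z (T.prod A B)) * (u ^ i * X) := by ring
        _ = 0 := by rw [pow_zero_of_le huX hir, mul_zero]
    · calc u ^ i * v ^ (r + s + 1 - i) * ((r + s + 1).choose i : T.Z (T.prod A B)) * X =
          u ^ i * ((r + s + 1).choose i : T.Z (T.prod A B)) * X * (v ^ (r + s + 1 - i) * 1) := by
            ring
        _ = 0 := by rw [pow_zero_of_le hvs (by omega), mul_zero]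
  have hdegM : 0 < T.deg B (M ^ s) := T.pol_pos B M hM
  have hMs : M ^ s ∈ T.cod B (T.dim B) := pow_mem B hM1 _
  -- degrees
  have hdeg1 : ∀ y ∈ T.cod A n, T.deg (T.prod A B) (X * T.p₁ A B y * (u + v) ^ (r + s)) =
      ((r + s).choose r : ℚ) * (T.deg A (x * y * L ^ r) * T.deg B (M ^ s)) := by
    intro y hy
    have e1 : X * T.p₁ A B y * (u + v) ^ (r + s) =
        ((r + s).choose r : ℚ) • (T.p₁ A B (x * y * L ^ r) * T.p₂ A B (M ^ s)) := by
      rw [add_pow, Finset.mul_sum, Finset.sum_eq_single r]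
      · rw [Nat.add_sub_cancel_left, map_mul, map_mul, map_pow, map_pow, Algebra.smul_def,
          map_natCast]
        ring
      · intro i hi hir
        have hi' : i ≤ r + s := Nat.lt_succ_iff.1 (Finset.mem_range.1 hi)
        rcases lt_or_gt_of_ne hir with hlt | hlt
        · calc X * T.p₁ A B y * (u ^ i * v ^ (r + s - i) *
              ((r + s).choose i : T.Z (T.prod A B))) =
              X * T.p₁ A B y * u ^ i * ((r + s).choose i : T.Z (T.prod A B)) *
                (v ^ (r + s - i) * 1) := by ring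
            _ = 0 := by rw [pow_zero_of_le hvs (by omega), mul_zero]
        · calc X * T.p₁ A B y * (u ^ i * v ^ (r + s - i) *
              ((r + s).choose i : T.Z (T.prod A B))) =
              T.p₁ A B y * v ^ (r + s - i) * ((r + s).choose i : T.Z (T.prod A B)) *
                (u ^ i * X) := by ring
            _ = 0 := by rw [pow_zero_of_le huX (by omega), mul_zero]
      · intro h1
        exact absurd (Finset.mem_range.2 (by omega)) h1
    rw [e1, map_smul, smul_eq_mul, T.deg_prod A B _ _ _ hMs]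
    exact mul_mem' A (T.mul_mem A n n _ _ hx hy) (pow_mem A hL1 _) (by omega)
  have hX0 : X ≠ 0 := by
    intro hX0
    apply hx0
    refine nondeg A hL hn hx hxp fun y hy _ => ?_
    have h1 := hdeg1 y hy
    rw [hX0, zero_mul, zero_mul, map_zero] at h1
    have h2 : ((r + s).choose r : ℚ) ≠ 0 := by
      exact_mod_cast (Nat.choose_pos (Nat.le_add_right r s)).ne'
    have h3 := (mul_eq_zero.1 h1.symm).resolve_left h2
    exact (mul_eq_zero.1 h3).resolve_right hdegM.ne'
  have hpos := h' X hXn hX0 (by rw [hN]; exact hprim)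
  rw [hN] at hpos
  have h5 := hdeg1 x hx
  rw [← hX] at h5
  rw [h5] at hpos
  have h6 : (-1 : ℚ) ^ n * (((r + s).choose r : ℚ) *
      (T.deg A (x * x * L ^ r) * T.deg B (M ^ s))) =
      (((r + s).choose r : ℚ) * T.deg B (M ^ s)) * ((-1) ^ n * T.deg A (x * x * L ^ r)) := by
    ring
  rw [h6] at hpos
  have h2 : (0 : ℚ) < ((r + s).choose r : ℚ) := by
    exact_mod_cast Nat.choose_pos (Nat.le_add_right r s)
  have h7 : 0 < ((r + s).choose r : ℚ) * T.deg B (M ^ s) := by positivity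
  exact (pos_iff_pos_of_mul_pos hpos).1 h7

/-- if positivity holds for all Jacobians with their theta divisor, it holds always -/
theorem of_jac (h : ∀ J θ, θ ∈ T.Jac J → ∀ n, 2 * n ≤ T.dim J → HSC T.toCycleRings J θ n)
    (A : T.AV) {L : T.Z A} (hL : L ∈ T.Pol A) {n : ℕ} (hn : 2 * n ≤ T.dim A) : HSC T.toCycleRings A L n := by
  obtain ⟨B, J, θ, f, hθ, hpol⟩ := T.jac_cover A
  obtain ⟨hdJ, e, he, ν, hν, hdeg⟩ := f
  replace hpol : ∀ L ∈ T.Pol (T.prod A B), e L ∈ T.Pol J := hpol
  obtain ⟨L₀, hL₀⟩ := T.pol_exists (T.prod A B)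
  refine factor A B hn hL₀ ?_ hL
  have hdim := T.dim_prod A B
  have hnJ : 2 * n ≤ T.dim J := by omega
  have h1 := indep J (T.jac_pol J θ hθ) (hpol L₀ hL₀) hnJ (h J θ hθ n hnJ)
  intro x hx hx0 hxp
  have h2 := h1 (e x) (he n x hx) (by
    intro h0
    exact hx0 ((map_eq_zero_iff e e.injective).1 h0)) (by
    rw [← map_pow, ← map_mul, hdJ, hxp, map_zero])
  rw [← map_mul, ← map_pow, ← map_mul, hdeg] at h2
  · rw [hdJ] at h2
    have h3 : (-1 : ℚ) ^ n * (ν * T.deg (T.prod A B)
        (x * x * L₀ ^ (T.dim (T.prod A B) - 2 * n))) = ν * ((-1) ^ n *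
        T.deg (T.prod A B) (x * x * L₀ ^ (T.dim (T.prod A B) - 2 * n))) := by ring
    rw [h3] at h2
    exact (pos_iff_pos_of_mul_pos h2).1 hν
  · exact mul_mem' _ (T.mul_mem _ n n _ _ hx hx) (pow_mem _ (T.pol_mem _ _ hL₀) _) (by omega)

/-! ### Exotic classes -/

theorem lef_cod (A : T.AV) (n : ℕ) {y : T.Z A} (hy : y ∈ Lef T.toCycleRings A n) : y ∈ T.cod A n := by
  have hprod : ∀ (m : ℕ) (d : Fin m → T.Z A), (∀ i, d i ∈ T.cod A 1) →
      (∏ i, d i) ∈ T.cod A m := by
    intro m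
    induction m with
    | zero => intro d _; rw [Fin.prod_univ_zero]; exact T.one_mem A
    | succ m ih =>
      intro d hd
      rw [Fin.prod_univ_succ]
      exact mul_mem' A (hd 0) (ih _ fun i => hd i.succ) (by omega)
  refine (Submodule.span_le.2 ?_ : Lef T.toCycleRings A n ≤ T.cod A n) hy
  rintro _ ⟨d, hd, rfl⟩
  exact hprod n d hd

theorem lef_mul (A : T.AV) {L : T.Z A} (hL : L ∈ T.cod A 1) (n : ℕ) {y : T.Z A}
    (hy : y ∈ Lef T.toCycleRings A n) : L * y ∈ Lef T.toCycleRings A (n + 1) := by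
  have h : Lef T.toCycleRings A n ≤ (Lef T.toCycleRings A (n + 1)).comap (LinearMap.mulLeft ℚ L) := by
    refine Submodule.span_le.2 ?_
    rintro _ ⟨d, hd, rfl⟩
    refine Submodule.subset_span ⟨Fin.cons L d, ?_, ?_⟩
    · intro i
      refine Fin.cases ?_ (fun j => ?_) i
      · simpa using hL
      · simpa using hd j
    · rw [Fin.prod_univ_succ]
      simp
  exact h hy

theorem lef_pow_mul (A : T.AV) {L : T.Z A} (hL : L ∈ T.cod A 1) (n k : ℕ) {y : T.Z A}
    (hy : y ∈ Lef T.toCycleRings A n) : L ^ k * y ∈ Lef T.toCycleRings A (n + k) := by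
  induction k with
  | zero => simpa using hy
  | succ k ih =>
    have := lef_mul A hL _ ih
    rw [← mul_assoc, ← pow_succ'] at this
    exact this

/-- orthogonality to primitive Lefschetz classes implies orthogonality to all of them -/
theorem orth_lef (A : T.AV) {L : T.Z A} (hL : L ∈ T.Pol A) {n : ℕ} (hn : 2 * n ≤ T.dim A)
    {x : T.Z A} (hxp : L ^ (T.dim A - 2 * n + 1) * x = 0)
    (h : ∀ y ∈ Lef T.toCycleRings A n, L ^ (T.dim A - 2 * n + 1) * y = 0 →
      T.deg A (x * y * L ^ (T.dim A - 2 * n)) = 0) :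
    ∀ y ∈ Lef T.toCycleRings A n, T.deg A (x * y * L ^ (T.dim A - 2 * n)) = 0 := by
  intro z hz
  have hL1 := T.pol_mem A L hL
  have hdec : ∃ y ∈ Lef T.toCycleRings A n, L ^ (T.dim A - 2 * n + 1) * y = 0 ∧ ∃ w, z = y + L * w := by
    rcases Nat.eq_zero_or_pos n with h0 | h0
    · subst h0
      refine ⟨z, hz, ?_, 0, by simp⟩
      exact T.cod_eq_zero A (T.dim A - 2 * 0 + 1) _ (by omega)
        (mul_mem' A (pow_mem A hL1 _) (lef_cod A 0 hz) (by omega))
    · have h1 : L ^ (T.dim A - 2 * n + 1) * z ∈ Lef T.toCycleRings A (T.dim A - (n - 1)) := by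
        have := lef_pow_mul A hL1 n (T.dim A - 2 * n + 1) hz
        rwa [show n + (T.dim A - 2 * n + 1) = T.dim A - (n - 1) by omega] at this
      obtain ⟨w, hw, hw2⟩ := T.lef_surj A L (n - 1) hL (by omega) _ h1
      refine ⟨z - L * w, Submodule.sub_mem _ hz ?_, ?_, w, by ring⟩
      · have := lef_mul A hL1 (n - 1) hw
        rwa [show n - 1 + 1 = n by omega] at this
      · have e : T.dim A - 2 * (n - 1) = T.dim A - 2 * n + 1 + 1 := by omega
        rw [e, pow_succ] at hw2
        rw [mul_sub, ← mul_assoc, hw2, sub_self]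
  obtain ⟨y, hy, hyp, w, rfl⟩ := hdec
  have h1 := h y hy hyp
  have e1 : x * (y + L * w) * L ^ (T.dim A - 2 * n) =
      x * y * L ^ (T.dim A - 2 * n) + w * (L ^ (T.dim A - 2 * n + 1) * x) := by ring
  rw [e1, hxp, mul_zero, add_zero, h1]

/-- it suffices to test primitive classes orthogonal to all intersections of divisors -/
theorem of_exotic (A : T.AV) {L : T.Z A} (hL : L ∈ T.Pol A) {n : ℕ} (hn : 2 * n ≤ T.dim A)
    (h : HSCex T.toCycleRings A L n) : HSC T.toCycleRings A L n := by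
  classical
  set K := L ^ (T.dim A - 2 * n) with hK
  set m := T.dim A - 2 * n + 1 with hm
  intro x hx hx0 hxp
  -- the space of primitive Lefschetz classes
  let V : Submodule ℚ (T.Z A) := Lef T.toCycleRings A n ⊓ LinearMap.ker (LinearMap.mulLeft ℚ (L ^ m))
  have hVmem : ∀ y, y ∈ V ↔ y ∈ Lef T.toCycleRings A n ∧ L ^ m * y = 0 := by
    intro y
    rw [Submodule.mem_inf, LinearMap.mem_ker, LinearMap.mulLeft_apply]
  have hVpos : ∀ y ∈ V, y ≠ 0 → 0 < (-1) ^ n * T.deg A (y * y * K) := by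
    intro y hy hy0
    exact T.lef_pos A L n hL hn y ((hVmem y).1 hy).1 hy0 ((hVmem y).1 hy).2
  -- the functional `y ↦ deg (z y K)` on `V`
  let F : T.Z A →ₗ[ℚ] (V →ₗ[ℚ] ℚ) :=
    { toFun := fun z => (T.deg A) ∘ₗ (LinearMap.mulLeft ℚ (z * K)) ∘ₗ V.subtype
      map_add' := by
        intro z z'
        ext y
        simp only [LinearMap.comp_apply, LinearMap.mulLeft_apply, LinearMap.add_apply, add_mul,
          map_add]
      map_smul' := by
        intro c z
        ext y
        simp only [LinearMap.comp_apply, LinearMap.mulLeft_apply, LinearMap.smul_apply,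
          smul_mul_assoc, map_smul, RingHom.id_apply] }
  have hF : ∀ z (y : V), F z y = T.deg A (z * K * y) := fun z y => rfl
  have hinj : Function.Injective (F ∘ₗ V.subtype) := by
    rw [← LinearMap.ker_eq_bot, LinearMap.ker_eq_bot']
    intro y hy
    by_contra hy0
    have h1 := LinearMap.congr_fun hy y
    rw [LinearMap.comp_apply, hF, LinearMap.zero_apply] at h1
    have h2 := hVpos y y.2 (fun h0 => hy0 (Subtype.ext h0))
    have e1 : (V.subtype y : T.Z A) * K * (y : T.Z A) = (y : T.Z A) * (y : T.Z A) * K := by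
      rw [Submodule.subtype_apply]; ring
    rw [e1] at h1
    rw [h1, mul_zero] at h2
    exact lt_irrefl _ h2
  have hsurj : Function.Surjective (F ∘ₗ V.subtype) :=
    (LinearMap.injective_iff_surjective_of_finrank_eq_finrank
      (Subspace.dual_finrank_eq (K := ℚ) (V := V)).symm).1 hinj
  obtain ⟨lam, hlam⟩ := hsurj (F x)
  have horth : ∀ y : V, T.deg A (((x : T.Z A) - lam) * K * y) = 0 := by
    intro y
    have h1 := LinearMap.congr_fun hlam y
    rw [LinearMap.comp_apply, hF, hF, Submodule.subtype_apply] at h1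
    rw [sub_mul, sub_mul, map_sub, h1, sub_self]
  obtain ⟨hl1, hl2⟩ := (hVmem _).1 lam.2
  set ε := (x : T.Z A) - lam with hε
  have hεc : ε ∈ T.cod A n := Submodule.sub_mem _ hx (lef_cod A n hl1)
  have hεp : L ^ m * ε = 0 := by rw [hε, mul_sub, hxp, hl2, sub_self]
  have hεo := orth_lef A hL hn hεp (fun y hy hyp => by
    have h1 := horth ⟨y, (hVmem y).2 ⟨hy, hyp⟩⟩
    have e1 : ε * y * K = ε * K * y := by ring
    rw [← hK, e1]; exact h1)
  have hx2 : (-1 : ℚ) ^ n * T.deg A (x * x * K) = (-1) ^ n * T.deg A (ε * ε * K) +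
      (-1) ^ n * T.deg A ((lam : T.Z A) * lam * K) := by
    have e1 : x * x * K = ε * ε * K + (lam : T.Z A) * lam * K + (2 : ℚ) • (ε * lam * K) := by
      rw [hε, Algebra.smul_def, map_ofNat]; ring
    have h1 := hεo lam hl1
    rw [← hK] at h1
    rw [e1, map_add, map_add, map_smul, h1, smul_zero, add_zero, mul_add]
  rw [hx2]
  have hεge : 0 ≤ (-1 : ℚ) ^ n * T.deg A (ε * ε * K) := by
    by_cases h0 : ε = 0
    · rw [h0, zero_mul, zero_mul, map_zero, mul_zero]
    · exact (h ε hεc h0 hεp hεo).le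
  have hlge : 0 ≤ (-1 : ℚ) ^ n * T.deg A ((lam : T.Z A) * lam * K) := by
    by_cases h0 : (lam : T.Z A) = 0
    · rw [h0, zero_mul, zero_mul, map_zero, mul_zero]
    · exact (hVpos _ lam.2 h0).le
  by_cases h0 : ε = 0
  · have hl0 : (lam : T.Z A) ≠ 0 := by
      intro hl0
      apply hx0
      have : x = ε + lam := by rw [hε]; ring
      rw [this, h0, hl0, add_zero]
    have := hVpos _ lam.2 hl0
    linarith
  · have := h ε hεc h0 hεp hεo
    rw [← hK] at this
    linarith

/-- every `A` has a Jacobian whose positivity, for exotic classes and the theta divisor, gives the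
positivity for `A` in the same codimension -/
theorem exists_jac (A : T.AV) : ∃ (J : T.AV) (θ : T.Z J), θ ∈ T.Jac J ∧ T.dim A ≤ T.dim J ∧
    ∀ n, 2 * n ≤ T.dim A → HSCex T.toCycleRings J θ n →
      ∀ L ∈ T.Pol A, HSC T.toCycleRings A L n := by
  obtain ⟨B, J, θ, f, hθ, hpol⟩ := T.jac_cover A
  obtain ⟨hdJ, e, he, ν, hν, hdeg⟩ := f
  replace hpol : ∀ L ∈ T.Pol (T.prod A B), e L ∈ T.Pol J := hpol
  obtain ⟨L₀, hL₀⟩ := T.pol_exists (T.prod A B)
  have hdim := T.dim_prod A B
  refine ⟨J, θ, hθ, by omega, fun n hn hex L hL => ?_⟩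
  refine factor A B hn hL₀ ?_ hL
  have hnJ : 2 * n ≤ T.dim J := by omega
  have h1 := indep J (T.jac_pol J θ hθ) (hpol L₀ hL₀) hnJ
    (of_exotic J (T.jac_pol J θ hθ) hnJ hex)
  intro x hx hx0 hxp
  have h2 := h1 (e x) (he n x hx) (by
    intro h0
    exact hx0 ((map_eq_zero_iff e e.injective).1 h0)) (by
    rw [← map_pow, ← map_mul, hdJ, hxp, map_zero])
  rw [← map_mul, ← map_pow, ← map_mul, hdeg] at h2
  · rw [hdJ] at h2
    have h3 : (-1 : ℚ) ^ n * (ν * T.deg (T.prod A B)
        (x * x * L₀ ^ (T.dim (T.prod A B) - 2 * n))) = ν * ((-1) ^ n *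
        T.deg (T.prod A B) (x * x * L₀ ^ (T.dim (T.prod A B) - 2 * n))) := by ring
    rw [h3] at h2
    exact (pos_iff_pos_of_mul_pos h2).1 hν
  · exact mul_mem' _ (T.mul_mem _ n n _ _ hx hx) (pow_mem _ (T.pol_mem _ _ hL₀) _) (by omega)

theorem exotic_of (A : T.AV) {L : T.Z A} {n : ℕ} (h : HSC T.toCycleRings A L n) : HSCex T.toCycleRings A L n :=
  fun x hx hx0 hxp _ => h x hx hx0 hxp

end NumTheory

end Pc0b458
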