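import Pool.Agent.Lib.Pc0b458.Real

/-!
Square roots in `ℝ ⊗ C`, and real points of rational positive semidefinite forms.
-/

open TensorProduct Polynomial

namespace Pc0b458

section Sqrt

variable {C : Type*} [CommRing C] [Algebra ℚ C]

/-- An element killed by a rational polynomial which is a product of distinct linear real factors
with positive roots has a real square root. -/
theorem exists_sqrt (a : C) (P : ℚ[X]) (hP : aeval a P = 0) (S : Finset ℝ)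
    (hS : ∀ x ∈ S, 0 < x) (hPS : P.map (algebraMap ℚ ℝ) = ∏ x ∈ S, (X - Polynomial.C x)) :
    ∃ b : ℝ ⊗[ℚ] C, b * b = (1 : ℝ) ⊗ₜ[ℚ] a := by
  classical
  let q : ℝ[X] := Lagrange.interpolate S id (fun x => Real.sqrt x)
  have hq : ∀ x ∈ S, q.eval x = Real.sqrt x := by
    intro x hx
    have := Lagrange.eval_interpolate_at_node (v := (id : ℝ → ℝ)) (fun x => Real.sqrt x)
      (Set.injOn_id _) hx
    exact this
  have hdvd : P.map (algebraMap ℚ ℝ) ∣ q * q - X := by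
    rw [hPS]
    refine Finset.prod_dvd_of_coprime ?_ ?_
    · intro x hx y hy hxy
      exact Polynomial.isCoprime_X_sub_C_of_isUnit_sub (by
        rw [isUnit_iff_ne_zero]; exact sub_ne_zero.2 hxy)
    · intro x hx
      rw [Polynomial.dvd_iff_isRoot, Polynomial.IsRoot.def, eval_sub, eval_mul, eval_X, hq x hx,
        Real.mul_self_sqrt (hS x hx).le, sub_self]
  obtain ⟨h, hh⟩ := hdvd
  let a' : ℝ ⊗[ℚ] C := (1 : ℝ) ⊗ₜ[ℚ] a
  have hPa : aeval a' (P.map (algebraMap ℚ ℝ)) = 0 := by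
    rw [aeval_map_algebraMap]
    have : aeval a' P = (Algebra.TensorProduct.includeRight : C →ₐ[ℚ] ℝ ⊗[ℚ] C) (aeval a P) := by
      rw [← Polynomial.aeval_algHom_apply]; rfl
    rw [this, hP, map_zero]
  refine ⟨aeval a' q, ?_⟩
  have := congrArg (aeval a') hh
  rw [map_sub, map_mul, map_mul, hPa, zero_mul, aeval_X, sub_eq_zero] at this
  exact this

theorem exists_inv (a : C) (P : ℚ[X]) (hP : aeval a P = 0) (S : Finset ℝ)
    (hS : ∀ x ∈ S, 0 < x) (hPS : P.map (algebraMap ℚ ℝ) = ∏ x ∈ S, (X - Polynomial.C x)) :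
    ∃ a' : C, a * a' = 1 := by
  have h0 : P.coeff 0 ≠ 0 := by
    intro h
    have h1 : (P.map (algebraMap ℚ ℝ)).eval 0 = 0 := by
      rw [← coeff_zero_eq_eval_zero, coeff_map, h, map_zero]
    rw [hPS, eval_prod, Finset.prod_eq_zero_iff] at h1
    obtain ⟨x, hx, hx0⟩ := h1
    rw [eval_sub, eval_X, eval_C, zero_sub, neg_eq_zero] at hx0
    exact (hS x hx).ne' hx0
  have h2 := congrArg (aeval a) (divX_mul_X_add P)
  rw [map_add, map_mul, aeval_X, hP, aeval_C] at h2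
  refine ⟨aeval a (divX P) * algebraMap ℚ C (-(P.coeff 0)⁻¹), ?_⟩
  have h3 : a * aeval a (divX P) = algebraMap ℚ C (-(P.coeff 0)) := by
    rw [map_neg]
    linear_combination h2
  rw [← mul_assoc, h3, ← map_mul, neg_mul_neg, mul_inv_cancel₀ h0, map_one]

end Sqrt

section Psd

variable {Z : Type*} [CommRing Z] [Algebra ℚ Z] [Module.Finite ℚ Z]

omit [Module.Finite ℚ Z] in
/-- a rational positive semidefinite form on a space is positive semidefinite on its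
real extension -/
theorem psd_real {V : Type*} [AddCommGroup V] [Module ℚ V] [Module.Finite ℚ V]
    (j : V →ₗ[ℚ] Z) (δ : Z →ₗ[ℚ] ℚ) (K : Z)
    (hpos : ∀ x : V, 0 ≤ δ (j x * j x * K)) (β : ℝ ⊗[ℚ] Z)
    (hβ : β ∈ LinearMap.range (LinearMap.lTensor ℝ j)) :
    0 ≤ formR δ (β * β * ((1 : ℝ) ⊗ₜ[ℚ] K)) := by
  classical
  obtain ⟨y, rfl⟩ := hβ
  let v := Module.finBasis ℚ V
  have hy : y = ∑ i, (v.baseChange ℝ).repr y i • ((1 : ℝ) ⊗ₜ[ℚ] v i) := by
    conv_lhs => rw [← (v.baseChange ℝ).sum_repr y]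
    refine Finset.sum_congr rfl fun i _ => ?_
    rw [Module.Basis.baseChange_apply]
  have key : ∀ t : Fin (Module.finrank ℚ V) → ℝ, 0 ≤ formR δ
      ((∑ i, t i • ((1 : ℝ) ⊗ₜ[ℚ] (j (v i)))) * (∑ i, t i • ((1 : ℝ) ⊗ₜ[ℚ] (j (v i)))) *
        ((1 : ℝ) ⊗ₜ[ℚ] K)) := by
    have hf : ∀ t : Fin (Module.finrank ℚ V) → ℝ, formR δ
      ((∑ i, t i • ((1 : ℝ) ⊗ₜ[ℚ] (j (v i)))) * (∑ i, t i • ((1 : ℝ) ⊗ₜ[ℚ] (j (v i)))) *
        ((1 : ℝ) ⊗ₜ[ℚ] K)) = ∑ i, ∑ k, t i * t k * (δ (j (v i) * j (v k) * K) : ℝ) := by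
      intro t
      rw [Finset.sum_mul_sum, Finset.sum_mul, map_sum]
      refine Finset.sum_congr rfl fun i _ => ?_
      rw [Finset.sum_mul, map_sum]
      refine Finset.sum_congr rfl fun k _ => ?_
      rw [smul_mul_smul_comm, smul_mul_assoc, map_smul, Algebra.TensorProduct.tmul_mul_tmul,
        Algebra.TensorProduct.tmul_mul_tmul, formR_tmul]
      simp
    intro t
    refine nonneg_of_rat (f := fun t => formR δ
      ((∑ i, t i • ((1 : ℝ) ⊗ₜ[ℚ] (j (v i)))) * (∑ i, t i • ((1 : ℝ) ⊗ₜ[ℚ] (j (v i)))) *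
        ((1 : ℝ) ⊗ₜ[ℚ] K))) ?_ ?_ t
    · have : (fun t : Fin (Module.finrank ℚ V) → ℝ => formR δ
        ((∑ i, t i • ((1 : ℝ) ⊗ₜ[ℚ] (j (v i)))) * (∑ i, t i • ((1 : ℝ) ⊗ₜ[ℚ] (j (v i)))) *
          ((1 : ℝ) ⊗ₜ[ℚ] K))) = fun t => ∑ i, ∑ k, t i * t k *
            (δ (j (v i) * j (v k) * K) : ℝ) := funext hf
      rw [this]
      fun_prop
    · intro t
      have h := hpos (∑ i, t i • v i)
      have h' : formR δ ((∑ i, (t i : ℝ) • ((1 : ℝ) ⊗ₜ[ℚ] (j (v i)))) *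
          (∑ i, (t i : ℝ) • ((1 : ℝ) ⊗ₜ[ℚ] (j (v i)))) * ((1 : ℝ) ⊗ₜ[ℚ] K)) =
          ((δ (j (∑ i, t i • v i) * j (∑ i, t i • v i) * K) : ℚ) : ℝ) := by
        rw [hf, map_sum, Finset.sum_mul_sum, Finset.sum_mul, map_sum]
        push_cast
        refine Finset.sum_congr rfl fun i _ => ?_
        rw [Finset.sum_mul, map_sum]
        push_cast
        refine Finset.sum_congr rfl fun k _ => ?_
        rw [map_smul, map_smul, smul_mul_smul_comm, smul_mul_assoc, map_smul, smul_eq_mul]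
        push_cast
        ring
      rw [h']
      exact_mod_cast h
  have h2 : LinearMap.lTensor ℝ j y =
      ∑ i, (v.baseChange ℝ).repr y i • ((1 : ℝ) ⊗ₜ[ℚ] (j (v i))) := by
    conv_lhs => rw [hy]
    rw [map_sum]
    refine Finset.sum_congr rfl fun i _ => ?_
    rw [TensorProduct.smul_tmul', LinearMap.lTensor_tmul, TensorProduct.smul_tmul']
  rw [h2]
  exact key _

omit [CommRing Z] [Algebra ℚ Z] [Module.Finite ℚ Z] in
theorem flat_range {V W : Type*} [AddCommGroup V] [Module ℚ V] [AddCommGroup W] [Module ℚ W]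
    (f : V →ₗ[ℚ] W) (y : ℝ ⊗[ℚ] V) (h : LinearMap.lTensor ℝ f y = 0) :
    ∃ y', LinearMap.lTensor ℝ (LinearMap.ker f).subtype y' = y :=
  (Module.Flat.lTensor_exact ℝ (LinearMap.exact_subtype_ker_map f) y).1 h

omit [Module.Finite ℚ Z] in
theorem psd_ker {V W : Type*} [AddCommGroup V] [Module ℚ V] [Module.Finite ℚ V]
    [AddCommGroup W] [Module ℚ W] (f : V →ₗ[ℚ] W) (s : V →ₗ[ℚ] Z) (δ : Z →ₗ[ℚ] ℚ) (K : Z)
    (hpos : ∀ x : V, f x = 0 → 0 ≤ δ (s x * s x * K)) (y : ℝ ⊗[ℚ] V)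
    (hy : LinearMap.lTensor ℝ f y = 0) :
    0 ≤ formR δ (LinearMap.lTensor ℝ s y * LinearMap.lTensor ℝ s y * ((1 : ℝ) ⊗ₜ[ℚ] K)) := by
  obtain ⟨y', rfl⟩ := flat_range f y hy
  refine psd_real (s ∘ₗ (LinearMap.ker f).subtype) δ K (fun x => hpos _ x.2) _ ?_
  refine ⟨y', ?_⟩
  rw [LinearMap.lTensor_comp, LinearMap.comp_apply]

end Psd

end Pc0b458
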