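import Pool.Agent.Lib.Pc0b458.Sqrt

/-!
# Numerical cycles on abelian varieties

`NumTheory` collects well known properties of the rings of algebraic cycles modulo numerical
equivalence, with rational coefficients, on the abelian varieties over a fixed field `k`.
-/

open TensorProduct Polynomial

universe u

namespace Pc0b458

/-- The rings `Z A` of cycle classes modulo numerical equivalence (rational coefficients, all
codimensions together) of the abelian varieties `A` over a field. -/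
structure CycleRings where
  /-- the abelian varieties over the base field -/
  AV : Type u
  /-- the dimension -/
  dim : AV → ℕ
  /-- the ring of numerical cycle classes with rational coefficients -/
  Z : AV → Type u
  [ringZ : ∀ A, CommRing (Z A)]
  [algZ : ∀ A, Algebra ℚ (Z A)]
  [finZ : ∀ A, Module.Finite ℚ (Z A)]
  /-- classes of codimension `n` -/
  cod : ∀ A, ℕ → Submodule ℚ (Z A)
  one_mem : ∀ A, (1 : Z A) ∈ cod A 0
  mul_mem : ∀ A i j (x y : Z A), x ∈ cod A i → y ∈ cod A j → x * y ∈ cod A (i + j)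
  cod_eq_zero : ∀ A i (x : Z A), dim A < i → x ∈ cod A i → x = 0
  /-- the degree of a class of codimension `dim A` -/
  deg : ∀ A, Z A →ₗ[ℚ] ℚ
  /-- numerically trivial classes are zero -/
  num_eq : ∀ A i j (x : Z A), i + j = dim A → x ∈ cod A i →
    (∀ y ∈ cod A j, deg A (x * y) = 0) → x = 0

attribute [instance] CycleRings.ringZ CycleRings.algZ CycleRings.finZ

section Defs

variable (T : CycleRings.{u})

/-- the span of the intersections of `n` divisor classes -/
def Lef (A : T.AV) (n : ℕ) : Submodule ℚ (T.Z A) :=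
  Submodule.span ℚ {y : T.Z A | ∃ d : Fin n → T.Z A, (∀ i, d i ∈ T.cod A 1) ∧ y = ∏ i, d i}

/-- positivity of the form `(-1)^n x.x.L^(g-2n)` on the nonzero primitive classes of
codimension `n` on `A`, for the polarisation `L` -/
def HSC (A : T.AV) (L : T.Z A) (n : ℕ) : Prop :=
  ∀ x ∈ T.cod A n, x ≠ 0 → L ^ (T.dim A - 2 * n + 1) * x = 0 →
    0 < (-1) ^ n * T.deg A (x * x * L ^ (T.dim A - 2 * n))

/-- the same, for the classes which are also orthogonal to all intersections of divisors -/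
def HSCex (A : T.AV) (L : T.Z A) (n : ℕ) : Prop :=
  ∀ x ∈ T.cod A n, x ≠ 0 → L ^ (T.dim A - 2 * n + 1) * x = 0 →
    (∀ y ∈ Lef T A n, T.deg A (x * y * L ^ (T.dim A - 2 * n)) = 0) →
    0 < (-1) ^ n * T.deg A (x * x * L ^ (T.dim A - 2 * n))

/-- multiplication by powers of `L` is bijective from codimension `n` to codimension
`dim A - n` -/
def HardLef (A : T.AV) (L : T.Z A) : Prop :=
  ∀ n, 2 * n ≤ T.dim A →
    (∀ x ∈ T.cod A n, L ^ (T.dim A - 2 * n) * x = 0 → x = 0) ∧
    (∀ y ∈ T.cod A (T.dim A - n), ∃ x ∈ T.cod A n, L ^ (T.dim A - 2 * n) * x = y)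

/-- results of Milne on intersections of divisors: positivity and hard Lefschetz -/
def LefPos (A : T.AV) (L : T.Z A) : Prop :=
  ∀ n, 2 * n ≤ T.dim A →
    (∀ x ∈ Lef T A n, x ≠ 0 → L ^ (T.dim A - 2 * n + 1) * x = 0 →
      0 < (-1) ^ n * T.deg A (x * x * L ^ (T.dim A - 2 * n))) ∧
    (∀ y ∈ Lef T A (T.dim A - n), ∃ x ∈ Lef T A n, L ^ (T.dim A - 2 * n) * x = y)

end Defs

/-- `f` is a polynomial function of its rational arguments -/
def PolyFun {Z : Type u} [CommRing Z] [Algebra ℚ Z] {s : ℕ} (f : (Fin s → ℚ) → Z) : Prop :=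
  ∃ P : MvPolynomial (Fin s) Z, ∀ t, f t = MvPolynomial.eval (fun i => algebraMap ℚ Z (t i)) P

/-- `d` is semisimple with positive real eigenvalues: it is killed by a rational polynomial
with distinct positive real roots -/
def PosEig {D : Type u} [Ring D] [Algebra ℚ D] (d : D) : Prop :=
  ∃ (P : ℚ[X]) (S : Finset ℝ), aeval d P = 0 ∧ (∀ x ∈ S, 0 < x) ∧
    P.map (algebraMap ℚ ℝ) = ∏ x ∈ S, (X - Polynomial.C x)

/-- For an abelian variety `A` of dimension `g` with ring of cycle classes `Z`: the algebra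
`D = End(A) ⊗ ℚ` and its action on the cycle classes by pull-back. -/
structure EndData (g : ℕ) {Z : Type u} [CommRing Z] [Algebra ℚ Z] (cod : ℕ → Submodule ℚ Z)
    (deg : Z →ₗ[ℚ] ℚ) where
  D : Type u
  [ringD : Ring D]
  [algD : Algebra ℚ D]
  pull : D → (Z →ₐ[ℚ] Z)
  pull_one : ∀ x, pull 1 x = x
  pull_mul : ∀ f g x, pull (f * g) x = pull g (pull f x)
  pull_mem : ∀ f i x, x ∈ cod i → pull f x ∈ cod i
  /-- the pull-back is a polynomial function of the endomorphism -/
  pull_poly : ∀ (s : ℕ) (v : Fin s → D) (x : Z), PolyFun fun t => pull (∑ i, t i • v i) x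
  /-- the degree of an endomorphism -/
  edeg : D → ℚ
  edeg_nonneg : ∀ f, 0 ≤ edeg f
  deg_pull : ∀ f x, x ∈ cod g → deg (pull f x) = edeg f * deg x

attribute [instance] EndData.ringD EndData.algD

/-- an anti-multiplicative linear map of the endomorphism algebra (Rosati involution) -/
structure AntiData (D : Type u) [Ring D] [Algebra ℚ D] where
  ros : D →ₗ[ℚ] D
  ros_mul : ∀ f g, ros (f * g) = ros g * ros f

/-- The Rosati involution `ros` of a polarisation `L` on `D = End(A) ⊗ ℚ`, and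
`iota M = φ_L⁻¹ φ_M` for divisor classes `M`; here `NS` is the space of divisor classes and
`Pol` the set of polarisations. -/
structure RosatiData {Z D : Type u} [CommRing Z] [Algebra ℚ Z] [Ring D] [Algebra ℚ D]
    (NS : Submodule ℚ Z) (pull : D → (Z →ₐ[ℚ] Z)) (L : Z) (Pol : Set Z) extends
    AntiData D where
  iota : Z →ₗ[ℚ] D
  iota_self : iota L = 1
  iota_inj : ∀ M ∈ NS, iota M = 0 → M = 0
  iota_sym : ∀ M ∈ NS, ros (iota M) = iota M
  iota_pull : ∀ M ∈ NS, ∀ f, iota (pull f M) = ros f * iota M * f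
  /-- for a polarisation `M`, `φ_L⁻¹ φ_M` is semisimple with positive real eigenvalues -/
  iota_pos : ∀ M ∈ Pol, PosEig (iota M)

section Defs

variable (T : CycleRings.{u})

/-- the pull-back `p` along a projection from `C` to `A` -/
structure ProjData (A C : T.AV) where
  p : T.Z A →ₐ[ℚ] T.Z C
  p_mem : ∀ i x, x ∈ T.cod A i → p x ∈ T.cod C i

/-- `C` is a product of `A` and `B`, with pull-backs along the projections. -/
structure ProdData (A B C : T.AV) where
  dim_eq : T.dim C = T.dim A + T.dim B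
  pr₁ : ProjData T A C
  pr₂ : ProjData T B C
  deg_prod : ∀ x y, x ∈ T.cod A (T.dim A) → y ∈ T.cod B (T.dim B) →
    T.deg C (pr₁.p x * pr₂.p y) = T.deg A x * T.deg B y

/-- The pull-back `e` along an isogeny of degree `ν` from `J` to `C`. -/
structure IsogData (C J : T.AV) where
  dim_eq : T.dim J = T.dim C
  e : T.Z C ≃ₐ[ℚ] T.Z J
  e_mem : ∀ i x, x ∈ T.cod C i → e x ∈ T.cod J i
  ν : ℚ
  ν_pos : 0 < ν
  deg_e : ∀ x ∈ T.cod C (T.dim J), T.deg J (e x) = ν * T.deg C x

end Defs

/-- The rings of numerical cycle classes of the abelian varieties over a field, with standard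
properties which are known for them over every field. -/
structure NumTheory extends CycleRings.{u} where
  /-- the classes of the polarisations of `A` -/
  Pol : ∀ A, Set (Z A)
  pol_exists : ∀ A, ∃ L, L ∈ Pol A
  pol_mem : ∀ A L, L ∈ Pol A → L ∈ cod A 1
  pol_pos : ∀ A L, L ∈ Pol A → 0 < deg A (L ^ dim A)
  hl : ∀ A L, L ∈ Pol A → HardLef toCycleRings A L
  milne : ∀ A L, L ∈ Pol A → LefPos toCycleRings A L
  /-- endomorphisms -/
  endo : ∀ A, EndData (dim A) (cod A) (deg A)
  /-- Rosati involutions -/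
  rosati : ∀ A L, L ∈ Pol A → RosatiData (cod A 1) (endo A).pull L (Pol A)
  /-- abelian varieties of every dimension (powers of an elliptic curve) -/
  dim_exists : ∀ r : ℕ, ∃ B, dim B = r
  /-- products -/
  prod : AV → AV → AV
  prodData : ∀ A B, ProdData toCycleRings A B (prod A B)
  pol_prod : ∀ A B L M, L ∈ Pol A → M ∈ Pol B →
    (prodData A B).pr₁.p L + (prodData A B).pr₂.p M ∈ Pol (prod A B)
  /-- the Jacobians of curves with the class of the theta divisor -/
  Jac : ∀ A, Set (Z A)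
  jac_pol : ∀ A θ, θ ∈ Jac A → θ ∈ Pol A
  /-- every abelian variety is, up to isogeny, a direct factor of a Jacobian -/
  jac_cover : ∀ A, ∃ (B J : AV) (θ : Z J) (f : IsogData toCycleRings (prod A B) J),
    θ ∈ Jac J ∧ ∀ L ∈ Pol (prod A B), f.e L ∈ Pol J

variable (T : NumTheory.{u})

namespace NumTheory

theorem hl_inj (A : T.AV) (L : T.Z A) (n : ℕ) (hL : L ∈ T.Pol A) (hn : 2 * n ≤ T.dim A) :
    ∀ x ∈ T.cod A n, L ^ (T.dim A - 2 * n) * x = 0 → x = 0 := (T.hl A L hL n hn).1

theorem hl_surj (A : T.AV) (L : T.Z A) (n : ℕ) (hL : L ∈ T.Pol A) (hn : 2 * n ≤ T.dim A) :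
    ∀ y ∈ T.cod A (T.dim A - n), ∃ x ∈ T.cod A n, L ^ (T.dim A - 2 * n) * x = y :=
  (T.hl A L hL n hn).2

theorem lef_pos (A : T.AV) (L : T.Z A) (n : ℕ) (hL : L ∈ T.Pol A) (hn : 2 * n ≤ T.dim A) :
    ∀ x ∈ Lef T.toCycleRings A n, x ≠ 0 → L ^ (T.dim A - 2 * n + 1) * x = 0 →
      0 < (-1) ^ n * T.deg A (x * x * L ^ (T.dim A - 2 * n)) := (T.milne A L hL n hn).1

theorem lef_surj (A : T.AV) (L : T.Z A) (n : ℕ) (hL : L ∈ T.Pol A) (hn : 2 * n ≤ T.dim A) :
    ∀ y ∈ Lef T.toCycleRings A (T.dim A - n), ∃ x ∈ Lef T.toCycleRings A n,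
      L ^ (T.dim A - 2 * n) * x = y := (T.milne A L hL n hn).2

/-- pull-back along the first projection -/
def p₁ (A B : T.AV) : T.Z A →ₐ[ℚ] T.Z (T.prod A B) := (T.prodData A B).pr₁.p

/-- pull-back along the second projection -/
def p₂ (A B : T.AV) : T.Z B →ₐ[ℚ] T.Z (T.prod A B) := (T.prodData A B).pr₂.p

theorem dim_prod (A B : T.AV) : T.dim (T.prod A B) = T.dim A + T.dim B :=
  (T.prodData A B).dim_eq

theorem p₁_mem (A B : T.AV) (i : ℕ) (x : T.Z A) (h : x ∈ T.cod A i) :
    T.p₁ A B x ∈ T.cod (T.prod A B) i := (T.prodData A B).pr₁.p_mem i x h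

theorem p₂_mem (A B : T.AV) (i : ℕ) (x : T.Z B) (h : x ∈ T.cod B i) :
    T.p₂ A B x ∈ T.cod (T.prod A B) i := (T.prodData A B).pr₂.p_mem i x h

theorem deg_prod (A B : T.AV) (x : T.Z A) (y : T.Z B) (hx : x ∈ T.cod A (T.dim A))
    (hy : y ∈ T.cod B (T.dim B)) :
    T.deg (T.prod A B) (T.p₁ A B x * T.p₂ A B y) = T.deg A x * T.deg B y :=
  (T.prodData A B).deg_prod x y hx hy

theorem pol_prod' (A B : T.AV) (L : T.Z A) (M : T.Z B) (hL : L ∈ T.Pol A) (hM : M ∈ T.Pol B) :
    T.p₁ A B L + T.p₂ A B M ∈ T.Pol (T.prod A B) := T.pol_prod A B L M hL hM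

end NumTheory

namespace NumTheory

variable {T}

theorem pow_mem (A : T.AV) {L : T.Z A} (h : L ∈ T.cod A 1) (k : ℕ) : L ^ k ∈ T.cod A k := by
  induction k with
  | zero => rw [pow_zero]; exact T.one_mem A
  | succ k ih => rw [pow_succ]; exact T.mul_mem A k 1 _ _ ih h

theorem mul_mem' (A : T.AV) {i j k : ℕ} {x y : T.Z A} (hx : x ∈ T.cod A i) (hy : y ∈ T.cod A j)
    (h : i + j = k) : x * y ∈ T.cod A k := h ▸ T.mul_mem A i j x y hx hy

/-- nondegeneracy of the Lefschetz form on primitive classes -/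
theorem nondeg (A : T.AV) {L : T.Z A} (hL : L ∈ T.Pol A) {n : ℕ} (hn : 2 * n ≤ T.dim A)
    {x : T.Z A} (hx : x ∈ T.cod A n) (hxp : L ^ (T.dim A - 2 * n + 1) * x = 0)
    (h : ∀ y ∈ T.cod A n, L ^ (T.dim A - 2 * n + 1) * y = 0 →
      T.deg A (x * y * L ^ (T.dim A - 2 * n)) = 0) : x = 0 := by
  have hL1 := T.pol_mem A L hL
  refine T.hl_inj A L n hL hn x hx ?_
  refine T.num_eq A (T.dim A - n) n _ (by omega)
    (mul_mem' A (pow_mem A hL1 _) hx (by omega)) fun z hz => ?_
  -- decompose z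
  have hdec : ∃ y ∈ T.cod A n, L ^ (T.dim A - 2 * n + 1) * y = 0 ∧ ∃ w, z = y + L * w := by
    rcases Nat.eq_zero_or_pos n with h0 | h0
    · subst h0
      refine ⟨z, hz, ?_, 0, by simp⟩
      exact T.cod_eq_zero A (T.dim A - 2 * 0 + 1) _ (by omega)
        (mul_mem' A (pow_mem A hL1 _) hz (by omega))
    · obtain ⟨w, hw, hw2⟩ := T.hl_surj A L (n - 1) hL (by omega)
        (L ^ (T.dim A - 2 * n + 1) * z) (mul_mem' A (pow_mem A hL1 _) hz (by omega))
      refine ⟨z - L * w, Submodule.sub_mem _ hz (mul_mem' A hL1 hw (by omega)), ?_, w, by ring⟩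
      have e : T.dim A - 2 * (n - 1) = T.dim A - 2 * n + 1 + 1 := by omega
      rw [e, pow_succ] at hw2
      rw [mul_sub, ← mul_assoc, hw2, sub_self]
  obtain ⟨y, hy, hyp, w, rfl⟩ := hdec
  have h1 := h y hy hyp
  have e1 : L ^ (T.dim A - 2 * n) * x * (y + L * w) =
      x * y * L ^ (T.dim A - 2 * n) + w * (L ^ (T.dim A - 2 * n + 1) * x) := by ring
  rw [e1, hxp, mul_zero, add_zero, h1]

/-- positive semidefinite forms are positive -/
theorem pos_of_psd (A : T.AV) {L : T.Z A} (hL : L ∈ T.Pol A) {n : ℕ} (hn : 2 * n ≤ T.dim A)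
    (hpsd : ∀ x ∈ T.cod A n, L ^ (T.dim A - 2 * n + 1) * x = 0 →
      0 ≤ (-1) ^ n * T.deg A (x * x * L ^ (T.dim A - 2 * n))) : HSC T.toCycleRings A L n := by
  intro x hx hx0 hxp
  rcases (hpsd x hx hxp).lt_or_eq with h | h
  · exact h
  · exfalso
    apply hx0
    refine nondeg A hL hn hx hxp fun y hy hyp => ?_
    set K := L ^ (T.dim A - 2 * n) with hK
    have hd : (-1 : ℚ) ^ n * T.deg A (x * x * K) = 0 := h.symm
    -- for all rational t
    have key : ∀ t : ℚ, 0 ≤ 2 * t * ((-1) ^ n * T.deg A (x * y * K)) +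
        t ^ 2 * ((-1) ^ n * T.deg A (y * y * K)) := by
      intro t
      have h2 := hpsd (x + t • y) (Submodule.add_mem _ hx (Submodule.smul_mem _ _ hy)) (by
        rw [mul_add, hxp, mul_smul_comm, hyp, smul_zero, add_zero])
      have e : (x + t • y) * (x + t • y) * K =
          x * x * K + (2 * t) • (x * y * K) + (t ^ 2) • (y * y * K) := by
        simp only [Algebra.smul_def, map_mul, map_pow, map_ofNat]
        ring
      rw [e, map_add, map_add, map_smul, map_smul, smul_eq_mul, smul_eq_mul] at h2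
      have : (-1 : ℚ) ^ n * (T.deg A (x * x * K) + 2 * t * T.deg A (x * y * K) +
          t ^ 2 * T.deg A (y * y * K)) = (-1 : ℚ) ^ n * T.deg A (x * x * K) +
          (2 * t * ((-1) ^ n * T.deg A (x * y * K)) +
          t ^ 2 * ((-1) ^ n * T.deg A (y * y * K))) := by ring
      rw [this, hd, zero_add] at h2
      exact h2
    set b := (-1 : ℚ) ^ n * T.deg A (x * y * K) with hb
    set c := (-1 : ℚ) ^ n * T.deg A (y * y * K) with hc
    have hc0 : 0 ≤ c := hpsd y hy hyp
    have hb0 : b = 0 := by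
      by_contra hbne
      have h3 := key (-b / (c + 1))
      have hc1 : 0 < c + 1 := by linarith
      have h4 : 2 * (-b / (c + 1)) * b + (-b / (c + 1)) ^ 2 * c =
          -(b ^ 2 * (c + 2)) / (c + 1) ^ 2 := by
        field_simp
        ring
      rw [h4] at h3
      have h5 : 0 < b ^ 2 := by positivity
      have h6 : 0 < (b ^ 2 * (c + 2)) / (c + 1) ^ 2 := by positivity
      rw [neg_div] at h3
      linarith
    have hs : ((-1 : ℚ) ^ n) * ((-1 : ℚ) ^ n) = 1 := by
      rw [← mul_pow]; norm_num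
    calc T.deg A (x * y * K) = ((-1 : ℚ) ^ n) * ((-1 : ℚ) ^ n) * T.deg A (x * y * K) := by
          rw [hs, one_mul]
      _ = (-1 : ℚ) ^ n * b := by rw [hb]; ring
      _ = 0 := by rw [hb0, mul_zero]

end NumTheory

end Pc0b458
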